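import Mathlib
import Pool.Agent.Lib_helper26.SCH.LayBd
import Pool.Agent.Lib_helper26.SCH.Step
import Pool.Agent.Lib_helper21.S4.FourSp

/-!
# `lay_Bd` with a hole one level shorter in the case `m = 3k - 1`
-/

set_option autoImplicit false
set_option linter.unusedSectionVars false

namespace Pool.Agent.SCH

open Finset Pool.Agent.GL Pool.Agent.Lib_helper42.RS SCH4

universe u

theorem w4_eq (m z x y : ℤ) : S4Four.w4 m z x y = SCH4.w4 m z x y := rfl

theorem target_eq (l : ℕ) (m k s : ℤ) : S4Four.target l m k s = SCH4.target l (3 * k - m) s := by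
  unfold S4Four.target SCH4.target
  rfl

section
variable {G : Type u} [AddCommGroup G] [Fintype G] [DecidableEq G]
variable {m : ℕ} [NeZero m]

/-- **the levels `|i| ≤ J` inside `B`**; in the case `m = 3k - 1` one level less is enough -/
theorem lay_Bd2 {J : ℕ} (hodd : m % 2 = 1) (hJ : 2 * J + 1 ≤ m)
    (hd : ∀ d, d ∣ m → 3 ≤ d → d < m → m / d ≤ (d + 1) * ((2 * J + 1) / d) + 1)
    (φ : G →+ ZMod m) (hφ : Function.Surjective φ) {B : Finset G}
    (hB : ∀ x, |(φ x).valMinAbs| ≤ (J : ℤ) → x ∈ B)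
    {k s : ℕ} (hks : Fintype.card G = B.card + k * Nat.card φ.ker + s)
    (hsh : s < Nat.card φ.ker) (hT : m ≤ 3 * k + 1) (hk : k + 2 ≤ m)
    (hY : m ≤ k + 4 * J + 2 ∨ (m + 1 = 3 * k ∧ m ≤ k + 4 * J + 3)) : Bd G B.card (FF B) := by
  rcases hY with hY | ⟨hm3, hY⟩
  · exact lay_Bd hodd hJ hd φ hφ hB hks hsh hT hk hY
  apply Bd_of_target hodd φ hφ hks hsh hT hk
  have hA : ∀ x ∈ Bᶜ, (J : ℤ) < |(φ x).valMinAbs| := by
    intro x hx
    by_contra hc
    exact (Finset.mem_compl.mp hx) (hB x (not_lt.mp hc))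
  have hcomp : (((Bᶜ : Finset G)).card : ℤ) = Fintype.card G - B.card := card_compl_int B
  have hksz : (Fintype.card G : ℤ) = B.card + k * Nat.card φ.ker + s := by exact_mod_cast hks
  have hmk : (m : ℤ) = 3 * k - 1 := by omega
  have h1 := S4Four.lay_special (Nat.card φ.ker) k s
    (fun v => ((LL φ Bᶜ v.val).card : ℤ)) (by omega) (by omega)
    (fun i => by positivity)
    (fun i => (card_av hJ (av_LL hA _)).trans (by omega))
    (by rw [sum_card_LL φ hφ, hcomp]; linarith) (by positivity) (by exact_mod_cast hsh.le)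
  rw [← hmk, target_eq] at h1
  exact h1.trans (layer_w4 hodd hJ hd φ hφ hA)

omit [NeZero m] in
/-- the Pollard condition holds for `J = ⌊m/6⌋` -/
theorem pollard_six (hodd : m % 2 = 1) (d : ℕ) (hdm : d ∣ m) (hd3 : 3 ≤ d) (hdlt : d < m) :
    m / d ≤ (d + 1) * ((2 * (m / 6) + 1) / d) + 1 := by
  obtain ⟨q, rfl⟩ := hdm
  have hd0 : 0 < d := by omega
  rw [Nat.mul_div_cancel_left _ hd0]
  have hq1 : q ≠ 0 := by rintro rfl; simp at hodd
  have hqodd : q % 2 = 1 := by
    rcases Nat.mod_two_eq_zero_or_one q with h | h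
    · exfalso
      rw [Nat.mul_mod, h] at hodd
      simp at hodd
    · exact h
  have hdodd : d % 2 = 1 := by
    rcases Nat.mod_two_eq_zero_or_one d with h | h
    · exfalso
      rw [Nat.mul_mod, h] at hodd
      simp at hodd
    · exact h
  have hq2 : q ≠ 1 := by rintro rfl; simp at hdlt
  have hq3 : 3 ≤ q := by omega
  -- `p = ⌊q/3⌋ ≤ (2 J + 1) / d`
  have hp : q / 3 ≤ (2 * (d * q / 6) + 1) / d := by
    rw [Nat.le_div_iff_mul_le hd0]
    obtain ⟨p, r, hr, rfl⟩ : ∃ p r, r < 3 ∧ q = 3 * p + r :=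
      ⟨q / 3, q % 3, Nat.mod_lt _ (by norm_num), (Nat.div_add_mod q 3).symm⟩
    have e : (3 * p + r) / 3 = p := by omega
    rw [e]
    -- `6 J ≥ d q - 5`, `d q` odd
    have h1 : d * (3 * p + r) = 3 * (p * d) + d * r := by ring
    rw [h1] at hodd ⊢
    have h2 : r = 0 ∨ 3 ≤ d * r := by
      rcases Nat.eq_zero_or_pos r with h | h
      · exact Or.inl h
      · right; nlinarith
    rcases h2 with h2 | h2
    · rw [h2] at hodd ⊢
      omega
    · omega
  have h3 : (d + 1) * (q / 3) ≤ (d + 1) * ((2 * (d * q / 6) + 1) / d) := Nat.mul_le_mul_left _ hp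
  have h4 : 4 * (q / 3) ≤ (d + 1) * (q / 3) := Nat.mul_le_mul_right _ (by omega)
  omega

/-- **hole of `⌊m/6⌋` levels** in the context: contradiction -/
theorem hole_six {B : Finset G} {χ : AddChar G ℂ} {φ : G →+ ZMod m} (ctx : Ctx B χ φ)
    (hodd : Odd (Fintype.card G)) (hβ : 9 * Fintype.card G < 20 * B.card)
    (hB : ∀ x, 6 * |(φ x).valMinAbs| ≤ (m : ℤ) → x ∈ B) : False := by
  have hker := card_ker_mul φ ctx.surj
  have hm1 : m % 2 = 1 := by
    rw [hker] at hodd
    exact Nat.odd_iff.1 (Nat.odd_mul.1 hodd).1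
  have hm4 := ctx.hm
  have hl0 : 0 < Nat.card φ.ker := Nat.card_pos
  have hbn : B.card < Fintype.card G := by
    have := ctx.triv m φ ctx.surj
    have h1 : m * B.card < m * Fintype.card G := by omega
    exact lt_of_mul_lt_mul_left h1 (Nat.zero_le _)
  obtain ⟨k, s, hsl, hks⟩ : ∃ k s, s < Nat.card φ.ker ∧
      Fintype.card G - B.card = k * Nat.card φ.ker + s :=
    ⟨(Fintype.card G - B.card) / Nat.card φ.ker, (Fintype.card G - B.card) % Nat.card φ.ker,
      Nat.mod_lt _ hl0, (Nat.div_add_mod' _ _).symm⟩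
  have hks' : Fintype.card G = B.card + k * Nat.card φ.ker + s := by omega
  -- `K = (m+1)/3 ≤ k`
  have hK : (m + 1) / 3 ≤ k := by
    by_contra hcon
    push Not at hcon
    have h1 := ctx.triv m φ ctx.surj
    have h2 : (k + 1) * Nat.card φ.ker ≤ (m + 1) / 3 * Nat.card φ.ker :=
      Nat.mul_le_mul_right _ hcon
    have h3 : Fintype.card G ≤ B.card + (m + 1) / 3 * Nat.card φ.ker := by
      rw [hks']
      have : (k + 1) * Nat.card φ.ker = k * Nat.card φ.ker + Nat.card φ.ker := by ring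
      omega
    have h4 : m * Fintype.card G ≤ m * B.card + (m + 1) / 3 * Fintype.card G := by
      calc m * Fintype.card G ≤ m * (B.card + (m + 1) / 3 * Nat.card φ.ker) :=
            Nat.mul_le_mul_left _ h3
        _ = m * B.card + (m + 1) / 3 * (m * Nat.card φ.ker) := by ring
        _ = _ := by rw [← hker]
    omega
  have hkm : k + 2 ≤ m := by
    by_contra hcon
    push Not at hcon
    -- `20 k l ≤ 20 (n - b) < 11 n = 11 m l`
    have h1 : 20 * (k * Nat.card φ.ker) < 11 * (m * Nat.card φ.ker) := by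
      rw [← hker]; omega
    have h2 : 20 * k < 11 * m := by
      have : (20 * k) * Nat.card φ.ker < (11 * m) * Nat.card φ.ker := by
        calc (20 * k) * Nat.card φ.ker = 20 * (k * Nat.card φ.ker) := by ring
          _ < 11 * (m * Nat.card φ.ker) := h1
          _ = _ := by ring
      exact lt_of_mul_lt_mul_right this (Nat.zero_le _)
    omega
  have hbd : Bd G B.card (GL.FF B) := by
    refine lay_Bd2 (J := m / 6) hm1 (by omega) (fun d h1 h2 h3 => pollard_six hm1 d h1 h2 h3) φ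
      ctx.surj ?_ hks' hsl (by omega) hkm ?_
    · intro x hx
      apply hB
      have : ((m / 6 : ℕ) : ℤ) * 6 ≤ m := by omega
      linarith
    · clear hks' hks hβ hker hbn
      obtain ⟨t, ht | ht | ht⟩ : ∃ t, m = 6 * t + 1 ∨ m = 6 * t + 3 ∨ m = 6 * t + 5 :=
        ⟨m / 6, by omega⟩
      · left; rw [ht] at hK ⊢; omega
      · left; rw [ht] at hK ⊢; omega
      · rcases Nat.eq_or_lt_of_le hK with h1 | h1
        · right; rw [ht] at h1 ⊢; omega
        · left; rw [ht] at h1 ⊢; omega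
  rw [Bd_card_iff] at hbd
  exact absurd ctx.big (not_lt.2 hbd)

end

end Pool.Agent.SCH
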