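import Mathlib
import Pool.Agent.Lib_helper25.LB.Slope
import Pool.Agent.Lib_helper22.SCHD.T3

/-!
# The slope of `f_G` for `9/20 < β ≤ 2/3` in the context
-/

set_option autoImplicit false
set_option linter.unusedSectionVars false

namespace Pool.Agent.SCH

open Finset Pool.Agent.GL Pool.Agent.Lib_helper42.RS

universe u

section
variable {G : Type u} [AddCommGroup G] [Fintype G] [DecidableEq G]

/-- **the slope of `f_G`**, `3 b ≤ 2 n` -/
theorem slope' (hodd : Odd (Fintype.card G)) {b : ℕ} (hb1 : 9 * Fintype.card G < 20 * b)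
    (hb2 : 3 * b ≤ 2 * Fintype.card G) (hf : fG G b ≤ 0)
    (htriv : ∀ (q : ℕ) [NeZero q] (ψ : G →+ ZMod q), Function.Surjective ψ →
      q * b + ((q + 1) / 3) * Fintype.card G < q * Fintype.card G)
    {e : ℕ} [NeZero e] (φe : G →+ ZMod e) (hφe : Function.Surjective φe)
    (he : ∀ g : G, e • g = 0) (hl : 2 ≤ Nat.card φe.ker) :
    fG G (b + 1) ≤ fG G b + 4 * Nat.card φe.ker + 5 ∨
    ∃ (H : AddSubgroup G) (y r j s : ℕ), y * Nat.card H = Fintype.card G ∧ y * r = e ∧ 3 ≤ r ∧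
      Nat.card H = r * Nat.card φe.ker ∧ b + 1 + s = (2 * j + 1) * Nat.card H ∧ 3 * j + 1 ≤ y ∧
      Alive H (3 * j + 1) ∧
      1000 * s ≤ 223 * Nat.card H ∧ Nat.card H ≤ 5 * (s + 1) ∧
      8 * Nat.card H + 15 * (b + 1) ≤ 10 * Fintype.card G + 15 ∧
      fG G (b + 1) ≤ fG G b + 4 * Nat.card H + 5 := by
  rcases Nat.lt_or_ge (2 * Fintype.card G) (3 * (b + 1)) with hlt | hge
  swap
  · exact slope hodd hb1 hge hf htriv φe hφe he hl
  left
  obtain ⟨l, hld⟩ : ∃ l, l = Nat.card φe.ker := ⟨_, rfl⟩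
  have hnl : Fintype.card G = e * l := by rw [hld]; exact card_ker_mul φe hφe
  have hoddl : Odd l := by
    have h1 := hodd
    rw [hnl] at h1
    exact (Nat.odd_mul.1 h1).2
  have hl3 : 3 ≤ l := by
    obtain ⟨k, hk⟩ := hoddl
    rw [← hld] at hl
    omega
  have he0 : 0 < e := Nat.pos_of_ne_zero (NeZero.ne e)
  -- type III
  have h3 : D1X.TIII G := by
    intro g
    have hq0 : 0 < addOrderOf g := addOrderOf_pos g
    obtain ⟨ψ, hψ⟩ := exists_surj_of_order g
    obtain ⟨q, hq⟩ : ∃ q, q = addOrderOf g := ⟨_, rfl⟩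
    have hqe : q ∣ e := by
      rw [hq, addOrderOf_dvd_iff_nsmul_eq_zero]
      exact he g
    have : NeZero (addOrderOf g) := ⟨hq0.ne'⟩
    have ht := htriv (addOrderOf g) ψ hψ
    have hκ := card_ker_mul ψ hψ
    obtain ⟨κ, hκd⟩ : ∃ κ, κ = Nat.card ψ.ker := ⟨_, rfl⟩
    rw [← hκd] at hκ
    rw [← hq] at ht hκ hq0 ⊢
    obtain ⟨r, hr⟩ := hqe
    have hr0 : 0 < r := by
      rcases Nat.eq_zero_or_pos r with h | h
      · rw [h] at hr; simp at hr; omega
      · exact h
    have hκr : κ = r * l := by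
      have : q * κ = q * (r * l) := by rw [← hκ, hnl, hr]; ring
      exact Nat.eq_of_mul_eq_mul_left hq0 this
    have hκl : l ≤ κ := by
      rw [hκr]; exact Nat.le_mul_of_pos_left _ hr0
    -- `b + ((q+1)/3) κ < n`
    have ht2 : b + ((q + 1) / 3) * κ < Fintype.card G := by
      have : q * (b + ((q + 1) / 3) * κ) < q * Fintype.card G := by
        calc q * (b + ((q + 1) / 3) * κ) = q * b + ((q + 1) / 3) * (q * κ) := by ring
          _ = q * b + ((q + 1) / 3) * Fintype.card G := by rw [← hκ]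
          _ < q * Fintype.card G := ht
      exact lt_of_mul_lt_mul_left this (Nat.zero_le _)
    rcases (show q % 3 = 0 ∨ q % 3 = 1 ∨ q % 3 = 2 by omega) with h0 | h1 | h2
    · exfalso
      obtain ⟨i, hi⟩ : ∃ i, q = 3 * i := ⟨q / 3, by omega⟩
      have e1 : (q + 1) / 3 = i := by omega
      rw [e1] at ht2
      have e2 : 3 * (i * κ) = Fintype.card G := by rw [hκ, hi]; ring
      omega
    · exact h1
    · exfalso
      obtain ⟨i, hi⟩ : ∃ i, q = 3 * i + 2 := ⟨q / 3, by omega⟩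
      have e1 : (q + 1) / 3 = i + 1 := by omega
      rw [e1] at ht2
      have e2 : Fintype.card G = 3 * (i * κ) + 2 * κ := by rw [hκ, hi]; ring
      have e3 : (i + 1) * κ = i * κ + κ := by ring
      omega
  have h6 := D1X.mod6_of_dvd h3 hodd φe hφe (dvd_refl e)
  obtain ⟨K, hK⟩ : ∃ K, e = 3 * K + 1 := ⟨e / 3, by omega⟩
  have he1 : 1 < e := by
    by_contra hc
    have : e = 1 := by omega
    have h1 : ∀ g : G, g = 0 := fun g => by
      have := he g
      rwa [‹e = 1›, one_smul] at this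
    have h2 : Fintype.card G = 1 := by
      rw [Fintype.card_eq_one_iff]
      exact ⟨0, h1⟩
    rw [h2, this] at hnl
    omega
  have hl4 : 4 ≤ l := by
    by_contra hc
    have hl3' : l = 3 := by omega
    have h3n : 3 ∣ Fintype.card G := by rw [hnl, hl3']; exact ⟨e, by ring⟩
    have : Fact (Nat.Prime 3) := ⟨by norm_num⟩
    obtain ⟨w, hw⟩ := exists_prime_addOrderOf_dvd_card 3 (G := G) h3n
    have := h3 w
    rw [hw] at this
    omega
  have hSF := D1X.sfmax h3 hodd hK he1 he φe hφe (by rw [← hld]; exact hl4)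
  rw [← hld] at hSF
  have hn2 : 2 * Fintype.card G = 6 * (K * l) + 2 * l := by rw [hnl, hK]; ring
  obtain ⟨s, hs⟩ : ∃ s, b + 1 + s = (2 * K + 1) * l := by
    refine ⟨(2 * K + 1) * l - (b + 1), ?_⟩
    have e1 : (2 * K + 1) * l = 2 * (K * l) + l := by ring
    omega
  have h1 := D1X.fG_le3 h3 hK he hnl hSF hs hlt
  have e1 : (2 * K + 1) * l = 2 * (K * l) + l := by ring
  have hs1 : s + 1 ≤ l := by omega
  have h2 := wit_below φe hφe (b := b) (j := K) (s := s + 1) (by rw [← hld, ← hs]; ring)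
    (by rw [← hld]; exact hs1) (by omega)
  rw [← hld] at h2 ⊢
  push_cast at h2
  have h7 : (l : ℤ) ≤ 3 * (s + 1) := by
    have : l ≤ 3 * (s + 1) := by omega
    exact_mod_cast this
  have hl0 : (0 : ℤ) ≤ l := by positivity
  nlinarith

/-- near `2/3`: the slope is at most `4 l + 5` -/
theorem slope_near' (hodd : Odd (Fintype.card G)) {b : ℕ} (hb1 : 9 * Fintype.card G < 20 * b)
    (hb2 : 3 * b ≤ 2 * Fintype.card G) (hf : fG G b ≤ 0)
    (htriv : ∀ (q : ℕ) [NeZero q] (ψ : G →+ ZMod q), Function.Surjective ψ →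
      q * b + ((q + 1) / 3) * Fintype.card G < q * Fintype.card G)
    {e : ℕ} [NeZero e] (φe : G →+ ZMod e) (hφe : Function.Surjective φe)
    (he : ∀ g : G, e • g = 0) (hl : 2 ≤ Nat.card φe.ker)
    (hnear : 10 * Fintype.card G + 15 < 24 * Nat.card φe.ker + 15 * (b + 1)) :
    fG G (b + 1) ≤ fG G b + 4 * Nat.card φe.ker + 5 := by
  rcases slope' hodd hb1 hb2 hf htriv φe hφe he hl with h | ⟨H, y, r, j, s, h1, h2, h3, h4, h5,
    h6, h7, h8, h9, h10, h11⟩
  · exact h
  · exfalso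
    have : 3 * Nat.card φe.ker ≤ Nat.card H := by
      rw [h4]; exact Nat.mul_le_mul_right _ h3
    omega

end

end Pool.Agent.SCH
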