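import Mathlib
import Pool.Agent.Lib_helper25.LB.Slope2

/-!
# The slope of `f_G`, refined and in numbers
-/

set_option autoImplicit false
set_option linter.unusedSectionVars false

namespace Pool.Agent.SCH

open Finset Pool.Agent.GL Pool.Agent.Lib_helper42.RS

universe u

section
variable {G : Type u} [AddCommGroup G] [Fintype G] [DecidableEq G]

/-- type I at `b + 1` -/
theorem slope_I' (hodd : Odd (Fintype.card G)) {b : ℕ} (hb1 : 9 * Fintype.card G < 20 * b)
    (hb2 : 3 * (b + 1) ≤ 2 * Fintype.card G) (hf : fG G b ≤ 0)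
    (htriv : ∀ (q : ℕ) [NeZero q] (ψ : G →+ ZMod q), Function.Surjective ψ →
      q * b + ((q + 1) / 3) * Fintype.card G < q * Fintype.card G)
    {e : ℕ} [NeZero e] (φe : G →+ ZMod e) (hφe : Function.Surjective φe)
    (he : ∀ g : G, e • g = 0) (hl : 2 ≤ Nat.card φe.ker) {v : ℤ} (hv : WI G (b + 1) v) :
    v ≤ fG G b + 4 * Nat.card φe.ker - 5 ∨
    ∃ j s : ℕ, s < Nat.card φe.ker ∧ b + 1 + s = (2 * j + 1) * Nat.card φe.ker ∧
      v ≤ fG G b + 4 * Nat.card φe.ker + 5 := by
  obtain ⟨K, S, hSK, hSF, hSc, hv⟩ := hv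
  have hnl := card_ker_mul φe hφe
  obtain ⟨n, hn⟩ : ∃ n, n = Fintype.card G := ⟨_, rfl⟩
  obtain ⟨l, hld⟩ : ∃ l, l = Nat.card φe.ker := ⟨_, rfl⟩
  rw [← hn, ← hld] at hnl
  have hKn : Nat.card K = n := by
    have h1 := AddSubgroup.card_mul_index K
    rw [Nat.card_eq_fintype_card (α := G), ← hn] at h1
    have hi0 : 0 < K.index := Nat.pos_of_ne_zero AddSubgroup.index_ne_zero_of_finite
    have hi2 : Odd K.index := by
      rw [← hn, ← h1] at hodd
      exact (Nat.odd_mul.mp hodd).2
    rcases Nat.lt_or_ge K.index 3 with h3 | h3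
    · have : K.index = 1 := by
        obtain ⟨k, hk⟩ := hi2
        omega
      rw [this, mul_one] at h1
      exact h1
    · exfalso
      have : Nat.card K * 3 ≤ Nat.card K * K.index := Nat.mul_le_mul_left _ h3
      omega
  rw [hKn] at hSc hv
  have hZ : (3 : ℤ) * (b + 1 : ℕ) ≤ 2 * n := by rw [hn]; exact_mod_cast hb2
  rcases Nat.lt_or_ge (3 * (b + 1)) (2 * n) with hlt | hge
  · -- `3 (b+1) < 2 n`
    obtain ⟨q', h', d, a1, a2, a3, a4⟩ := sf_struct S hSF (c := b + 1) (by rw [hSc, hn])
      (by omega) (by omega)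
    obtain ⟨p, hp0, ψ, hψ, h3, h4⟩ := exists_prime_surj (G := G) a1 a2
    have ht := htriv p ψ hψ
    have hκ := card_ker_mul ψ hψ
    obtain ⟨κ, hκd⟩ : ∃ κ, κ = Nat.card ψ.ker := ⟨_, rfl⟩
    rw [← hκd] at hκ
    rw [← hn] at hκ a2 ht
    have hp : 0 < p := Nat.pos_of_ne_zero hp0.out
    have hκ0 : 0 < κ := by rw [hκd]; exact Nat.card_pos
    -- `n - b > (p+1)/3 κ`
    have ht2 : b + ((p + 1) / 3) * κ < n := by
      have : p * (b + ((p + 1) / 3) * κ) < p * n := by
        calc p * (b + ((p + 1) / 3) * κ) = p * b + ((p + 1) / 3) * (p * κ) := by ring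
          _ = p * b + ((p + 1) / 3) * n := by rw [← hκ]
          _ < p * n := ht
      exact lt_of_mul_lt_mul_left this (Nat.zero_le _)
    have ht3 : 3 * (b + 1) + (p + 1) * κ ≤ 3 * n := by
      have e1 : 3 * (((p + 1) / 3) * κ) = (p + 1) * κ := by
        have : 3 * ((p + 1) / 3) = p + 1 := by omega
        rw [← mul_assoc, this]
      omega
    have hh' : h' ≤ κ := by
      -- `q' h' = p κ`, `p ≤ q'`
      have h5 : p ≤ q' := Nat.le_of_dvd (by
        rcases Nat.eq_zero_or_pos q' with h | h
        · rw [h] at a1; omega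
        · exact h) h4
      have h6 : p * h' ≤ p * κ := by
        rw [← hκ, ← a2]
        exact Nat.mul_le_mul_right _ h5
      exact Nat.le_of_mul_le_mul_left h6 hp
    have e2 : (p + 1) * κ = n + κ := by rw [hκ]; ring
    have e3 : 2 * q' * h' = 2 * n := by rw [← a2]; ring
    have hd0 : d = 0 := by omega
    have hh2 : h' = κ := by omega
    have h3b : 3 * (b + 1) + κ = 2 * n := by omega
    -- the value
    have hv2 : v = (κ : ℤ) ^ 2 := by
      have : (3 * ((b + 1 : ℕ) : ℤ) - 2 * (n : ℤ)) = -κ := by
        have : ((3 * (b + 1) + κ : ℕ) : ℤ) = ((2 * n : ℕ) : ℤ) := by rw [h3b]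
        push_cast at this ⊢
        linarith
      rw [hv, this]; ring
    -- the witness at `b`
    have hj : b + 1 = (2 * ((p - 2) / 3) + 1) * κ := by
      obtain ⟨i, hi⟩ : ∃ i, p = 3 * i + 2 := ⟨p / 3, by omega⟩
      have e4 : (p - 2) / 3 = i := by omega
      rw [e4]
      have : 3 * (b + 1) = 3 * ((2 * i + 1) * κ) := by
        have e5 : 2 * n = 6 * (i * κ) + 4 * κ := by rw [hκ, hi]; ring
        have e6 : 3 * ((2 * i + 1) * κ) = 6 * (i * κ) + 3 * κ := by ring
        omega
      exact Nat.eq_of_mul_eq_mul_left (by norm_num) this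
    have hw := wit_below ψ hψ (b := b) (j := (p - 2) / 3) (s := 1) (by rw [← hκd]; exact hj)
      (by rw [← hκd]; exact hκ0) (by omega)
    rw [← hκd] at hw
    push_cast at hw
    have hκ5 : (κ : ℤ) ≤ 5 := by
      by_contra hc
      push Not at hc
      nlinarith
    -- `κ = l`
    have hpe : p ∣ e := by
      obtain ⟨g, hg⟩ := hψ 1
      have h6 : ((e : ℕ) : ZMod p) = 0 := by
        have := congrArg ψ (he g)
        rw [map_nsmul, hg, map_zero, nsmul_one] at this
        exact this
      exact (ZMod.natCast_eq_zero_iff e p).1 h6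
    obtain ⟨r, hr⟩ := hpe
    have hκl : κ = r * l := by
      have : p * κ = p * (r * l) := by rw [← hκ, hnl, hr]; ring
      exact Nat.eq_of_mul_eq_mul_left hp this
    have hoddκ : Odd κ := by
      rw [← hn, hκ] at hodd
      exact (Nat.odd_mul.1 hodd).2
    have hr1 : r = 1 := by
      rw [hκl] at hoddκ hκ5
      obtain ⟨k1, hk1⟩ := (Nat.odd_mul.1 hoddκ).1
      obtain ⟨k2, hk2⟩ := (Nat.odd_mul.1 hoddκ).2
      have h7 : r * l ≤ 5 := by exact_mod_cast hκ5
      by_contra hne
      have h8 : 3 ≤ r := by omega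
      have h9 : 3 ≤ l := by omega
      have : 3 * 3 ≤ r * l := Nat.mul_le_mul h8 h9
      omega
    rw [hr1, one_mul] at hκl
    right
    refine ⟨(p - 2) / 3, 0, by rw [← hld, ← hκl]; exact hκ0, by rw [← hld, ← hκl]; simpa using hj, ?_⟩
    rw [hv2, ← hld, ← hκl]
    nlinarith
  · -- `3 (b+1) = 2 n`
    have h3b : 3 * (b + 1) = 2 * n := by omega
    have hv0 : v = 0 := by
      have : (3 * ((b + 1 : ℕ) : ℤ) - 2 * (n : ℤ)) = 0 := by
        have : ((3 * (b + 1) : ℕ) : ℤ) = ((2 * n : ℕ) : ℤ) := by rw [h3b]
        push_cast at this ⊢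
        linarith
      rw [hv, this]; ring
    have h3n : 3 ∣ Fintype.card G := by rw [← hn]; omega
    have h3e : 3 ∣ e := by
      have : Fact (Nat.Prime 3) := ⟨by norm_num⟩
      obtain ⟨w, hw⟩ := exists_prime_addOrderOf_dvd_card 3 (G := G) h3n
      rw [← hw, addOrderOf_dvd_iff_nsmul_eq_zero]
      exact he w
    obtain ⟨e', he'⟩ := h3e
    have hb : b + 1 = 2 * e' * l := by
      have : 3 * (b + 1) = 3 * (2 * e' * l) := by rw [h3b, hnl, he']; ring
      exact Nat.eq_of_mul_eq_mul_left (by norm_num) this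
    have he0 : 1 ≤ e' := by
      rcases Nat.eq_zero_or_pos e' with h | h
      · rw [h] at hb; simp at hb
      · exact h
    have hw := even_wit φe hφe (b := b) (i := e') (τ := 1) (by rw [← hld]; exact hb)
      (by rw [← hld]; omega) he0 (by omega)
    rw [← hld] at hw
    push_cast at hw
    left
    rw [hv0, ← hld]
    linarith

/-- **the slope of `f_G`**, refined -/
theorem slope_ref (hodd : Odd (Fintype.card G)) {b : ℕ} (hb1 : 9 * Fintype.card G < 20 * b)
    (hb2 : 3 * (b + 1) ≤ 2 * Fintype.card G) (hf : fG G b ≤ 0)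
    (htriv : ∀ (q : ℕ) [NeZero q] (ψ : G →+ ZMod q), Function.Surjective ψ →
      q * b + ((q + 1) / 3) * Fintype.card G < q * Fintype.card G)
    {e : ℕ} [NeZero e] (φe : G →+ ZMod e) (hφe : Function.Surjective φe)
    (he : ∀ g : G, e • g = 0) (hl : 2 ≤ Nat.card φe.ker) :
    fG G (b + 1) ≤ fG G b + 4 * Nat.card φe.ker - 5 ∨
    (∃ j s : ℕ, s < Nat.card φe.ker ∧ b + 1 + s = (2 * j + 1) * Nat.card φe.ker ∧
      fG G (b + 1) ≤ fG G b + 4 * Nat.card φe.ker + 5) ∨
    ∃ (H : AddSubgroup G) (y r j s : ℕ), y * Nat.card H = Fintype.card G ∧ y * r = e ∧ 3 ≤ r ∧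
      Nat.card H = r * Nat.card φe.ker ∧ b + 1 + s = (2 * j + 1) * Nat.card H ∧ 3 * j + 1 ≤ y ∧
      Alive H (3 * j + 1) ∧
      1000 * s ≤ 223 * Nat.card H ∧ Nat.card H ≤ 5 * (s + 1) ∧
      8 * Nat.card H + 15 * (b + 1) ≤ 10 * Fintype.card G + 15 ∧
      fG G (b + 1) ≤ fG G b + 4 * Nat.card H + 5 := by
  obtain ⟨l, hld⟩ : ∃ l, l = Nat.card φe.ker := ⟨_, rfl⟩
  have hnl : Fintype.card G = e * l := by rw [hld]; exact card_ker_mul φe hφe
  have hbn : b + 1 ≤ Fintype.card G := by omega
  have hoddl : Odd l := by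
    have h1 := hodd
    rw [hnl] at h1
    exact (Nat.odd_mul.1 h1).2
  have hodde : Odd e := by
    have h1 := hodd
    rw [hnl] at h1
    exact (Nat.odd_mul.1 h1).1
  have hl3 : 3 ≤ l := by
    obtain ⟨k, hk⟩ := hoddl
    rw [← hld] at hl
    omega
  -- lower bound at `b + 1`
  have hlow : -4 * (l : ℤ) ^ 2 ≤ 5 * fG G (b + 1) := by
    rcases Nat.lt_or_ge (3 * (b + 1)) (2 * Fintype.card G) with h1 | h1
    · have := fG_ge_q φe hφe (b := b + 1) h1
      rw [← hld] at this
      exact this
    · have h3b : 3 * (b + 1) = 2 * Fintype.card G := le_antisymm hb2 h1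
      have h3n : 3 ∣ Fintype.card G := by omega
      have h3e : 3 ∣ e := by
        have : Fact (Nat.Prime 3) := ⟨by norm_num⟩
        obtain ⟨w, hw⟩ := exists_prime_addOrderOf_dvd_card 3 (G := G) h3n
        rw [← hw, addOrderOf_dvd_iff_nsmul_eq_zero]
        exact he w
      obtain ⟨e', he'⟩ := h3e
      have hb : b + 1 = 2 * e' * l := by
        have : 3 * (b + 1) = 3 * (2 * e' * l) := by rw [h3b, hnl, he']; ring
        exact Nat.eq_of_mul_eq_mul_left (by norm_num) this
      have he0 : 1 ≤ e' := by
        rcases Nat.eq_zero_or_pos e' with h | h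
        · rw [h] at hb; simp at hb
        · exact h
      have hw := even_wit φe hφe (b := b + 1) (i := e') (τ := 0) (by rw [← hld]; exact hb)
        (by omega) he0 (by omega)
      have h0 : (0 : ℤ) ≤ (l : ℤ) ^ 2 := by positivity
      push_cast at hw
      linarith
  obtain ⟨v, hvd⟩ : ∃ v, v = fG G (b + 1) := ⟨_, rfl⟩
  have hW := W_fG (G := G) hbn
  rw [← hvd] at hW hlow ⊢
  rcases hW with hW | ⟨H, j, s, hs, hv, hpos⟩
  · rcases slope_I' hodd hb1 hb2 hf htriv φe hφe he hl hW with h | h
    · exact Or.inl h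
    · exact Or.inr (Or.inl h)
  -- the index `y`
  obtain ⟨y, hy⟩ : ∃ y, y = H.index := ⟨_, rfl⟩
  obtain ⟨h, hhd⟩ : ∃ h, h = Nat.card H := ⟨_, rfl⟩
  have hyn : y * h = Fintype.card G := by
    have h1 := AddSubgroup.card_mul_index H
    rw [Nat.card_eq_fintype_card (α := G), ← hy, ← hhd] at h1
    rw [← h1]; ring
  have hh0 : 0 < h := by rw [hhd]; exact Nat.card_pos
  rw [← hhd] at hs hv hpos
  -- liveness and cyclicity
  have hcyc : ∀ t : ℕ, Alive H t → 9 * y < 27 * t → ∃ r, y * r = e ∧ h = r * l := by
    intro t ha ht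
    obtain ⟨g, hg⟩ := alive_cyc hodd ha (by rw [← hy]; omega)
    have h1 : y ∣ e := by
      rw [hy, ← hg e, he g]
      exact H.zero_mem
    obtain ⟨r, hr⟩ := h1
    refine ⟨r, hr.symm, ?_⟩
    have hy0 : 0 < y := by
      rcases Nat.eq_zero_or_pos y with h2 | h2
      · rw [h2, zero_mul] at hyn
        omega
      · exact h2
    have : y * h = y * (r * l) := by rw [hyn, hnl, hr]; ring
    exact Nat.eq_of_mul_eq_mul_left hy0 this
  have hr_cases : ∀ r : ℕ, y * r = e → r = 1 ∨ 3 ≤ r := by
    intro r hr
    rw [← hr] at hodde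
    obtain ⟨k, hk⟩ := (Nat.odd_mul.1 hodde).2
    omega
  -- the common case: below an odd multiple
  have caseA : b + 1 + s = (2 * j + 1) * h → Alive H (3 * j + 1) →
      v ≤ fG G b + 4 * (l : ℤ) - 5 ∨
      (∃ j s : ℕ, s < l ∧ b + 1 + s = (2 * j + 1) * l ∧ v ≤ fG G b + 4 * (l : ℤ) + 5) ∨
    ∃ (H : AddSubgroup G) (y r j s : ℕ), y * Nat.card H = Fintype.card G ∧ y * r = e ∧ 3 ≤ r ∧
      Nat.card H = r * l ∧ b + 1 + s = (2 * j + 1) * Nat.card H ∧ 3 * j + 1 ≤ y ∧
      Alive H (3 * j + 1) ∧
      1000 * s ≤ 223 * Nat.card H ∧ Nat.card H ≤ 5 * (s + 1) ∧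
      8 * Nat.card H + 15 * (b + 1) ≤ 10 * Fintype.card G + 15 ∧
      v ≤ fG G b + 4 * Nat.card H + 5 := by
    intro hpA haA
    have h9 : 9 * y < 27 * (3 * j + 1) := by
      have h1 : 9 * (y * h) < 20 * ((2 * j + 1) * h) := by rw [hyn]; omega
      have h2 : (9 * y) * h < (20 * (2 * j + 1)) * h := by
        calc (9 * y) * h = 9 * (y * h) := by ring
          _ < 20 * ((2 * j + 1) * h) := h1
          _ = _ := by ring
      have h3 := lt_of_mul_lt_mul_right h2 (Nat.zero_le _)
      omega
    obtain ⟨r, hr, hhr⟩ := hcyc _ haA h9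
    have hjy : 3 * j + 1 ≤ y := by
      obtain ⟨g, hg⟩ := haA
      by_contra hc
      push Not at hc
      have hy0 : 0 < y := by
        rcases Nat.eq_zero_or_pos y with h2 | h2
        · rw [h2, zero_mul] at hyn
          omega
        · exact h2
      refine hg y hy0 hc ?_
      rw [hy]
      exact AddSubgroup.nsmul_index_mem H g
    -- value at `b` when `s + 1 ≤ h`
    have hval : s + 1 ≤ h → ((h : ℤ) - (s + 1)) * ((h : ℤ) - 5 * (s + 1)) ≤ fG G b := by
      intro hs1
      have := le_below (H := H) (b := b) (j := j) (s := s + 1) (by rw [← hhd]; exact hs1)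
        (by rw [← hhd, ← hpA]; ring) haA
      rw [← hhd] at this
      push_cast at this
      exact this
    -- `s = h`
    have hsh : s = h → b + 1 = 2 * j * h := by
      intro h1
      rw [h1] at hpA
      have : (2 * j + 1) * h = 2 * j * h + h := by ring
      omega
    have h5s : s + 1 ≤ h → (h : ℤ) ≤ 5 * (s + 1) := by
      intro hs1
      have h1 := (hval hs1).trans hf
      have h2 : (s : ℤ) + 1 ≤ h := by exact_mod_cast hs1
      by_contra hc
      push Not at hc
      have h3 : 0 ≤ (h : ℤ) - (s + 1) := by linarith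
      rcases h3.lt_or_eq with h4 | h4
      · have := mul_pos h4 (show 0 < (h : ℤ) - 5 * (s + 1) by linarith)
        linarith
      · have h5 : (0 : ℤ) ≤ s := by positivity
        linarith
    rcases Nat.lt_or_ge s h with hslt | hsge
    · have hD := hval hslt
      have h5 := h5s hslt
      have hDD : v ≤ fG G b + (6 * h - 10 * s - 5) := by
        rw [hv]
        nlinarith
      rcases hr_cases r hr with hr1 | hr3
      · right; left
        have hlh' : h = l := by
          rw [hr1, one_mul] at hhr; exact hhr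
        have hlh : (h : ℤ) = l := by exact_mod_cast hlh'
        refine ⟨j, s, by rw [← hlh']; exact hslt, by rw [← hlh']; exact hpA, ?_⟩
        rw [← hlh]
        linarith
      · -- `r ≥ 3`
        have hlh : 3 * (l : ℤ) ≤ h := by
          rw [hhr]; push_cast
          have : (3 : ℤ) ≤ r := by exact_mod_cast hr3
          have h1 : (0 : ℤ) ≤ l := by positivity
          nlinarith
        have hl0 : (0 : ℤ) ≤ l := by positivity
        have hsp := slope_split (h : ℤ) s (by
          rw [← hv]
          nlinarith) (by exact_mod_cast hh0)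
        rcases hsp with hsp | hsp
        · right; right
          refine ⟨H, y, r, j, s, by rw [← hhd]; exact hyn, hr, hr3, by rw [← hhd]; exact hhr,
            by rw [← hhd]; exact hpA, hjy, haA, by rw [← hhd]; exact_mod_cast hsp,
            by rw [← hhd]; exact_mod_cast h5, ?_, by rw [← hhd]; linarith⟩
          -- `8 h + 15 (b+1) ≤ 10 n + 15`
          rw [← hhd, ← hyn]
          have h6 : 3 * (b + 1) ≤ 2 * (y * h) := by rw [hyn]; exact hb2
          have h7 : 1000 * s ≤ 223 * h := by exact_mod_cast hsp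
          have h8 : h ≤ 5 * (s + 1) := by exact_mod_cast h5
          -- `6 j + 4 ≤ 2 y`
          have h10 : 6 * j + 4 ≤ 2 * y := by
            by_contra hc
            push Not at hc
            have h11 : 2 * y ≤ 6 * j + 2 := by omega
            have h12 : 2 * y * h ≤ (6 * j + 2) * h := Nat.mul_le_mul_right _ h11
            have e1 : (6 * j + 2) * h = 6 * (j * h) + 2 * h := by ring
            have e2 : (2 * j + 1) * h = 2 * (j * h) + h := by ring
            have e3 : 2 * y * h = 2 * (y * h) := by ring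
            omega
          have h12 : (6 * j + 4) * h ≤ 2 * y * h := Nat.mul_le_mul_right _ h10
          have e1 : (6 * j + 4) * h = 6 * (j * h) + 4 * h := by ring
          have e2 : (2 * j + 1) * h = 2 * (j * h) + h := by ring
          have e3 : 2 * y * h = 2 * (y * h) := by ring
          omega
        · left
          have : (0 : ℤ) < h := by exact_mod_cast hh0
          linarith
    · -- `s = h`
      have hseq : s = h := le_antisymm hs hsge
      have hc := hsh hseq
      left
      have hv0 : v = 0 := by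
        rw [hv, hseq]; ring
      rw [hv0]
      have hj1 : 1 ≤ j := by
        rcases Nat.eq_zero_or_pos j with h1 | h1
        · rw [h1] at hc; simp at hc
        · exact h1
      have h1 := even_wit φe hφe (b := b) (i := j * r) (τ := 1)
        (by rw [← hld, hc, hhr]; ring) (by rw [← hld]; omega)
        (by
          have : 1 ≤ r := by rcases hr_cases r hr with h | h <;> omega
          exact Nat.mul_pos hj1 this)
        (by
          have h2 : (3 * j + 1) * r ≤ y * r := Nat.mul_le_mul_right _ hjy
          rw [hr] at h2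
          have e1 : (3 * j + 1) * r = 3 * (j * r) + r := by ring
          omega)
      rw [← hld] at h1
      push_cast at h1
      linarith
  rcases hpos with ⟨hpA, haA⟩ | ⟨hpB, haB⟩
  · rw [← hld]
    exact caseA hpA haA
  · rcases Nat.eq_zero_or_pos s with hs0 | hs1
    · rw [← hld]
      subst hs0
      exact caseA (by omega) (Alive.mono haB (by omega))
    · -- above, `s ≥ 1`
      left
      have h9 : 9 * y < 27 * (3 * j + 2) := by
        have h1 : 9 * (y * h) < 20 * ((2 * j + 2) * h) := by
          rw [hyn]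
          have e1 : (2 * j + 2) * h = (2 * j + 1) * h + h := by ring
          omega
        have h2 : (9 * y) * h < (20 * (2 * j + 2)) * h := by
          calc (9 * y) * h = 9 * (y * h) := by ring
            _ < 20 * ((2 * j + 2) * h) := h1
            _ = _ := by ring
        have h3 := lt_of_mul_lt_mul_right h2 (Nat.zero_le _)
        omega
      obtain ⟨r, hr, hhr⟩ := hcyc _ haB h9
      have hDb := le_above (H := H) (b := b) (j := j) (s := s - 1) (by rw [← hhd]; omega)
        (by rw [← hhd]; omega) haB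
      rw [← hhd, Nat.cast_sub hs1] at hDb
      push_cast at hDb
      have hDD : v ≤ fG G b + (10 * s - 6 * h - 5) := by
        rw [hv]
        nlinarith
      have hsZ : (s : ℤ) ≤ h := by exact_mod_cast hs
      rw [← hld]
      rcases hr_cases r hr with hr1 | hr3
      · have hlh : (h : ℤ) = l := by
          rw [hr1, one_mul] at hhr; exact_mod_cast hhr
        rw [← hlh]
        linarith
      · have hlh : 3 * (l : ℤ) ≤ h := by
          rw [hhr]; push_cast
          have : (3 : ℤ) ≤ r := by exact_mod_cast hr3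
          have h1 : (0 : ℤ) ≤ l := by positivity
          nlinarith
        have hl0 : (0 : ℤ) ≤ l := by positivity
        have hh0Z : (0 : ℤ) < h := by exact_mod_cast hh0
        have hsp := slope_split (h : ℤ) s (by
          rw [← hv]
          nlinarith) hh0Z
        rcases hsp with hsp | hsp
        · linarith
        · -- just below `(2 j + 2) h`
          obtain ⟨τ, hτ⟩ : ∃ τ, s + τ = h := ⟨h - s, by omega⟩
          have hτZ : (s : ℤ) + τ = h := by exact_mod_cast hτ
          have hcτ : b + 1 + τ = (2 * j + 2) * h := by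
            have e1 : (2 * j + 2) * h = (2 * j + 1) * h + h := by ring
            omega
          have hτ23 : 1000 * (τ : ℤ) ≤ 23 * h := by linarith
          have hy3 : 3 * j + 3 ≤ y := by
            by_contra hc
            push Not at hc
            have h11 : 2 * y ≤ 6 * j + 4 := by omega
            have h12 : 2 * y * h ≤ (6 * j + 4) * h := Nat.mul_le_mul_right _ h11
            have e1 : (6 * j + 4) * h = 6 * (j * h) + 4 * h := by ring
            have e2 : (2 * j + 2) * h = 2 * (j * h) + 2 * h := by ring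
            have e3 : 2 * y * h = 2 * (y * h) := by ring
            have h13 : 1000 * τ ≤ 23 * h := by exact_mod_cast hτ23
            omega
          have hie : 3 * ((j + 1) * r) ≤ e := by
            rw [← hr]
            calc 3 * ((j + 1) * r) = (3 * j + 3) * r := by ring
              _ ≤ y * r := Nat.mul_le_mul_right _ hy3
          have hi1 : 1 ≤ (j + 1) * r := Nat.mul_pos (by omega) (by omega)
          have hvτ : v = (τ : ℤ) * (5 * τ - 4 * h) := by
            rw [hv, ← hτZ]; ring
          rcases Nat.eq_zero_or_pos τ with hτ0 | hτ1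
          · -- `τ = 0`
            have h1 := even_wit φe hφe (b := b) (i := (j + 1) * r) (τ := 1)
              (by rw [← hld]; rw [hτ0] at hcτ; rw [hhr] at hcτ; rw [← add_zero (b + 1), hcτ]; ring)
              (by rw [← hld]; omega) hi1 (by omega)
            rw [← hld] at h1
            push_cast at h1
            rw [hτ0] at hvτ
            have hv0 : v = 0 := by rw [hvτ]; simp
            rw [hv0]
            linarith
          · exfalso
            have hτ1Z : (1 : ℤ) ≤ τ := by exact_mod_cast hτ1
            rcases Nat.lt_or_ge l τ with hlt | hge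
            · -- `τ > l`
              have hltZ : (l : ℤ) < τ := by exact_mod_cast hlt
              rw [hvτ] at hlow
              have f1 : 0 ≤ ((τ : ℤ) - l) * (4 * h - 5 * τ) :=
                mul_nonneg (by linarith) (by linarith)
              have f2 : 0 ≤ (l : ℤ) * (4 * h - 5 * τ - 9 * l) :=
                mul_nonneg hl0 (by linarith)
              have f3 : 0 < (l : ℤ) ^ 2 := by
                have : (0 : ℤ) < l := by exact_mod_cast (show 0 < l by omega)
                positivity
              linarith [mul_nonneg hl0 hl0, show ((τ : ℤ) - l) * (4 * h - 5 * τ) =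
                -((τ : ℤ) * (5 * τ - 4 * h)) - (l : ℤ) * (4 * h - 5 * τ) from by ring,
                show (l : ℤ) * (4 * h - 5 * τ - 9 * l) = (l : ℤ) * (4 * h - 5 * τ) - 9 * (l : ℤ) ^ 2
                  from by ring]
            · have h1 := even_wit φe hφe (b := b + 1) (i := (j + 1) * r) (τ := τ)
                (by rw [← hld, hcτ, hhr]; ring) (by rw [← hld]; exact hge) hi1 (by omega)
              rw [← hld, ← hvd, hvτ] at h1
              have hl1 : (0 : ℤ) < l := by exact_mod_cast (show 0 < l by omega)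
              have : 0 < (τ : ℤ) * (h - l) := mul_pos (by linarith) (by linarith)
              linarith [show (τ : ℤ) * (h - l) = (τ : ℤ) * h - τ * l from by ring,
                show (τ : ℤ) * (5 * τ - 4 * l) = 5 * (τ : ℤ) ^ 2 - 4 * ((τ : ℤ) * l) from by ring,
                show (τ : ℤ) * (5 * τ - 4 * h) = 5 * (τ : ℤ) ^ 2 - 4 * ((τ : ℤ) * h) from by ring]


end

end Pool.Agent.SCH
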