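import Mathlib
import Pool.Agent.Lib_helper25.LB.Slope3

/-!
# The slope of `f_G` in numbers
-/

set_option autoImplicit false
set_option linter.unusedSectionVars false

namespace Pool.Agent.SCH

open Finset Pool.Agent.GL Pool.Agent.Lib_helper42.RS

universe u

section
variable {G : Type u} [AddCommGroup G] [Fintype G] [DecidableEq G]

/-- **the slope of `f_G`**, `3 b ≤ 2 n`, refined -/
theorem slope_ref' (hodd : Odd (Fintype.card G)) {b : ℕ} (hb1 : 9 * Fintype.card G < 20 * b)
    (hb2 : 3 * b ≤ 2 * Fintype.card G) (hf : fG G b ≤ 0)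
    (htriv : ∀ (q : ℕ) [NeZero q] (ψ : G →+ ZMod q), Function.Surjective ψ →
      q * b + ((q + 1) / 3) * Fintype.card G < q * Fintype.card G)
    {e : ℕ} [NeZero e] (φe : G →+ ZMod e) (hφe : Function.Surjective φe)
    (he : ∀ g : G, e • g = 0) (hl : 2 ≤ Nat.card φe.ker) :
    fG G (b + 1) ≤ fG G b + 4 * Nat.card φe.ker - 5 ∨
    (∃ j s : ℕ, s < Nat.card φe.ker ∧ b + 1 + s = (2 * j + 1) * Nat.card φe.ker ∧
      fG G (b + 1) ≤ fG G b + 4 * Nat.card φe.ker + 5) ∨
    ∃ (H : AddSubgroup G) (y r j s : ℕ), y * Nat.card H = Fintype.card G ∧ y * r = e ∧ 3 ≤ r ∧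
      Nat.card H = r * Nat.card φe.ker ∧ b + 1 + s = (2 * j + 1) * Nat.card H ∧ 3 * j + 1 ≤ y ∧
      Alive H (3 * j + 1) ∧
      1000 * s ≤ 223 * Nat.card H ∧ Nat.card H ≤ 5 * (s + 1) ∧
      8 * Nat.card H + 15 * (b + 1) ≤ 10 * Fintype.card G + 15 ∧
      fG G (b + 1) ≤ fG G b + 4 * Nat.card H + 5 := by
  rcases Nat.lt_or_ge (2 * Fintype.card G) (3 * (b + 1)) with hlt | hge
  swap
  · exact slope_ref hodd hb1 hge hf htriv φe hφe he hl
  right; left
  obtain ⟨l, hld⟩ : ∃ l, l = Nat.card φe.ker := ⟨_, rfl⟩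
  have hnl : Fintype.card G = e * l := by rw [hld]; exact card_ker_mul φe hφe
  have hoddl : Odd l := by
    have h1 := hodd
    rw [hnl] at h1
    exact (Nat.odd_mul.1 h1).2
  have hl3 : 3 ≤ l := by
    obtain ⟨k, hk⟩ := hoddl
    rw [← hld] at hl
    omega
  have he0 : 0 < e := Nat.pos_of_ne_zero (NeZero.ne e)
  -- type III
  have h3 : D1X.TIII G := by
    intro g
    have hq0 : 0 < addOrderOf g := addOrderOf_pos g
    obtain ⟨ψ, hψ⟩ := exists_surj_of_order g
    obtain ⟨q, hq⟩ : ∃ q, q = addOrderOf g := ⟨_, rfl⟩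
    have hqe : q ∣ e := by
      rw [hq, addOrderOf_dvd_iff_nsmul_eq_zero]
      exact he g
    have : NeZero (addOrderOf g) := ⟨hq0.ne'⟩
    have ht := htriv (addOrderOf g) ψ hψ
    have hκ := card_ker_mul ψ hψ
    obtain ⟨κ, hκd⟩ : ∃ κ, κ = Nat.card ψ.ker := ⟨_, rfl⟩
    rw [← hκd] at hκ
    rw [← hq] at ht hκ hq0 ⊢
    obtain ⟨r, hr⟩ := hqe
    have hr0 : 0 < r := by
      rcases Nat.eq_zero_or_pos r with h | h
      · rw [h] at hr; simp at hr; omega
      · exact h
    have hκr : κ = r * l := by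
      have : q * κ = q * (r * l) := by rw [← hκ, hnl, hr]; ring
      exact Nat.eq_of_mul_eq_mul_left hq0 this
    have hκl : l ≤ κ := by
      rw [hκr]; exact Nat.le_mul_of_pos_left _ hr0
    -- `b + ((q+1)/3) κ < n`
    have ht2 : b + ((q + 1) / 3) * κ < Fintype.card G := by
      have : q * (b + ((q + 1) / 3) * κ) < q * Fintype.card G := by
        calc q * (b + ((q + 1) / 3) * κ) = q * b + ((q + 1) / 3) * (q * κ) := by ring
          _ = q * b + ((q + 1) / 3) * Fintype.card G := by rw [← hκ]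
          _ < q * Fintype.card G := ht
      exact lt_of_mul_lt_mul_left this (Nat.zero_le _)
    rcases (show q % 3 = 0 ∨ q % 3 = 1 ∨ q % 3 = 2 by omega) with h0 | h1 | h2
    · exfalso
      obtain ⟨i, hi⟩ : ∃ i, q = 3 * i := ⟨q / 3, by omega⟩
      have e1 : (q + 1) / 3 = i := by omega
      rw [e1] at ht2
      have e2 : 3 * (i * κ) = Fintype.card G := by rw [hκ, hi]; ring
      omega
    · exact h1
    · exfalso
      obtain ⟨i, hi⟩ : ∃ i, q = 3 * i + 2 := ⟨q / 3, by omega⟩
      have e1 : (q + 1) / 3 = i + 1 := by omega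
      rw [e1] at ht2
      have e2 : Fintype.card G = 3 * (i * κ) + 2 * κ := by rw [hκ, hi]; ring
      have e3 : (i + 1) * κ = i * κ + κ := by ring
      omega
  have h6 := D1X.mod6_of_dvd h3 hodd φe hφe (dvd_refl e)
  obtain ⟨K, hK⟩ : ∃ K, e = 3 * K + 1 := ⟨e / 3, by omega⟩
  have he1 : 1 < e := by
    by_contra hc
    have : e = 1 := by omega
    have h1 : ∀ g : G, g = 0 := fun g => by
      have := he g
      rwa [‹e = 1›, one_smul] at this
    have h2 : Fintype.card G = 1 := by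
      rw [Fintype.card_eq_one_iff]
      exact ⟨0, h1⟩
    rw [h2, this] at hnl
    omega
  have hl4 : 4 ≤ l := by
    by_contra hc
    have hl3' : l = 3 := by omega
    have h3n : 3 ∣ Fintype.card G := by rw [hnl, hl3']; exact ⟨e, by ring⟩
    have : Fact (Nat.Prime 3) := ⟨by norm_num⟩
    obtain ⟨w, hw⟩ := exists_prime_addOrderOf_dvd_card 3 (G := G) h3n
    have := h3 w
    rw [hw] at this
    omega
  have hSF := D1X.sfmax h3 hodd hK he1 he φe hφe (by rw [← hld]; exact hl4)
  rw [← hld] at hSF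
  have hn2 : 2 * Fintype.card G = 6 * (K * l) + 2 * l := by rw [hnl, hK]; ring
  obtain ⟨s, hs⟩ : ∃ s, b + 1 + s = (2 * K + 1) * l := by
    refine ⟨(2 * K + 1) * l - (b + 1), ?_⟩
    have e1 : (2 * K + 1) * l = 2 * (K * l) + l := by ring
    omega
  have h1 := D1X.fG_le3 h3 hK he hnl hSF hs hlt
  have e1 : (2 * K + 1) * l = 2 * (K * l) + l := by ring
  have hs1 : s + 1 ≤ l := by omega
  have h2 := wit_below φe hφe (b := b) (j := K) (s := s + 1) (by rw [← hld, ← hs]; ring)
    (by rw [← hld]; exact hs1) (by omega)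
  refine ⟨K, s, by rw [← hld]; omega, by rw [← hld]; exact hs, ?_⟩
  rw [← hld] at h2 ⊢
  push_cast at h2
  have h7 : (l : ℤ) ≤ 3 * (s + 1) := by
    have : l ≤ 3 * (s + 1) := by omega
    exact_mod_cast this
  have hl0 : (0 : ℤ) ≤ l := by positivity
  nlinarith


/-- `11 ∣ e` and `f_G(b) ≤ 0` exclude `b > 6.8 n / 11` -/
theorem excl_eleven {b : ℕ} (hf : fG G b ≤ 0)
    (htriv : ∀ (q : ℕ) [NeZero q] (ψ : G →+ ZMod q), Function.Surjective ψ →
      q * b + ((q + 1) / 3) * Fintype.card G < q * Fintype.card G)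
    {e : ℕ} [NeZero e] (φe : G →+ ZMod e) (hφe : Function.Surjective φe)
    (he : ∀ g : G, e • g = 0) (h11 : 11 ∣ e) : 55 * b ≤ 34 * Fintype.card G := by
  by_contra hc
  push Not at hc
  have hn := card_ker_mul φe hφe
  have h11n : 11 ∣ Fintype.card G := by rw [hn]; exact h11.mul_right _
  have : Fact (Nat.Prime 11) := ⟨by norm_num⟩
  obtain ⟨w, hw⟩ := exists_prime_addOrderOf_dvd_card 11 (G := G) h11n
  obtain ⟨ψ, hψ⟩ := exists_surj_of_order w
  have hq0 : NeZero (addOrderOf w) := ⟨by rw [hw]; norm_num⟩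
  have ht := htriv (addOrderOf w) ψ hψ
  have hκ := card_ker_mul ψ hψ
  obtain ⟨κ, hκd⟩ : ∃ κ, κ = Nat.card ψ.ker := ⟨_, rfl⟩
  rw [← hκd] at hκ
  have e1 : (addOrderOf w + 1) / 3 = 4 := by rw [hw]
  rw [e1, hw] at ht
  rw [hw] at hκ
  obtain ⟨s, hs⟩ : ∃ s, b + s = 7 * κ := ⟨7 * κ - b, by omega⟩
  have h1 := wit_below ψ hψ (b := b) (j := 3) (s := s) (by rw [← hκd, hs])
    (by rw [← hκd]; omega) (by rw [hw]; norm_num)
  rw [← hκd] at h1
  have h2 : 5 * (s : ℤ) < κ := by
    have : 5 * s < κ := by omega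
    exact_mod_cast this
  have h3 : (0 : ℤ) ≤ s := by positivity
  have h4 : 0 < ((κ : ℤ) - s) * ((κ : ℤ) - 5 * s) := mul_pos (by linarith) (by linarith)
  linarith

/-- `3 ∣ n` excludes `3 b = 2 n` -/
theorem lt_of_three {b : ℕ}
    (htriv : ∀ (q : ℕ) [NeZero q] (ψ : G →+ ZMod q), Function.Surjective ψ →
      q * b + ((q + 1) / 3) * Fintype.card G < q * Fintype.card G)
    (h3 : 3 ∣ Fintype.card G) : 3 * b < 2 * Fintype.card G := by
  have : Fact (Nat.Prime 3) := ⟨by norm_num⟩
  obtain ⟨w, hw⟩ := exists_prime_addOrderOf_dvd_card 3 (G := G) h3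
  obtain ⟨ψ, hψ⟩ := exists_surj_of_order w
  have hq0 : NeZero (addOrderOf w) := ⟨by rw [hw]; norm_num⟩
  have ht := htriv (addOrderOf w) ψ hψ
  rw [hw] at ht
  have e1 : (3 + 1) / 3 = 1 := by norm_num
  rw [e1] at ht
  omega

/-- odd composite numbers from `21` on, not divisible by `5` -/
theorem comp_cases {e : ℕ} (h21 : 21 ≤ e) (hodd : Odd e) (h5 : ¬ 5 ∣ e) (hp : ¬ e.Prime) :
    e = 21 ∨ e = 27 ∨ e = 33 ∨ 39 ≤ e := by
  rcases Nat.lt_or_ge e 39 with h | h
  · interval_cases e <;> first | (exfalso; revert hodd; decide) | (exfalso; revert h5; decide) |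
      (exfalso; revert hp; norm_num; done) | simp
  · exact Or.inr (Or.inr (Or.inr h))

/-- **the slope in numbers**, `D = f_G(b+1) - f_G(b)`, `14/25 < b/n ≤ 2/3`, composite exponent
`e ≥ 21`, `5 ∤ e` -/
theorem slope_num (hodd : Odd (Fintype.card G)) {b : ℕ} (hb1 : 14 * Fintype.card G < 25 * b)
    (hb2 : 3 * b ≤ 2 * Fintype.card G) (hf : fG G b ≤ 0)
    (htriv : ∀ (q : ℕ) [NeZero q] (ψ : G →+ ZMod q), Function.Surjective ψ →
      q * b + ((q + 1) / 3) * Fintype.card G < q * Fintype.card G)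
    {e : ℕ} [NeZero e] (φe : G →+ ZMod e) (hφe : Function.Surjective φe)
    (he : ∀ g : G, e • g = 0) (hl : 2 ≤ Nat.card φe.ker) (he21 : 21 ≤ e) (h5 : ¬ 5 ∣ e)
    (hp : ¬ e.Prime) {D : ℤ} (hD : D = fG G (b + 1) - fG G b) :
    (10 * b ≤ 6 * Fintype.card G → 10000 * (D + 3) ≤ 3175 * Fintype.card G) ∧
    (55 * b ≤ 34 * Fintype.card G → 10000 * (D + 3) ≤ 3175 * Fintype.card G ∨
      (33 ≤ e ∧ 10000 * (D + 3) ≤ 4445 * Fintype.card G)) ∧
    (34 * Fintype.card G < 55 * b → 85 * b ≤ 54 * Fintype.card G →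
      10000 * (D + 3) ≤ 3175 * Fintype.card G) ∧
    (54 * Fintype.card G < 85 * b → 50 * b ≤ 33 * Fintype.card G →
      10000 * (D + 3) ≤ 2126 * Fintype.card G) ∧
    (33 * Fintype.card G < 50 * b → 10000 * (D + 3) ≤ 1905 * Fintype.card G) := by
  obtain ⟨l, hld⟩ : ∃ l, l = Nat.card φe.ker := ⟨_, rfl⟩
  have hnl : Fintype.card G = e * l := by rw [hld]; exact card_ker_mul φe hφe
  have hoddl : Odd l := by
    have h1 := hodd
    rw [hnl] at h1
    exact (Nat.odd_mul.1 h1).2
  have hodde : Odd e := by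
    have h1 := hodd
    rw [hnl] at h1
    exact (Nat.odd_mul.1 h1).1
  have hl3 : 3 ≤ l := by
    obtain ⟨k, hk⟩ := hoddl
    rw [← hld] at hl
    omega
  have hcomp := comp_cases he21 hodde h5 hp
  obtain ⟨n, hn⟩ : ∃ n, n = Fintype.card G := ⟨_, rfl⟩
  have hsl := slope_ref' hodd (b := b) (by omega) hb2 hf htriv φe hφe he hl
  have h11 := fun h => excl_eleven (b := b) hf htriv φe hφe he h
  rw [← hld, ← hn] at hsl
  rw [← hn] at hnl hb1 hb2 h11 ⊢
  have h21l : 21 * l ≤ n := by rw [hnl]; exact Nat.mul_le_mul_right _ he21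
  -- generic bound
  have hgen : D ≤ 4 * (l : ℤ) + 5 → 10000 * (D + 3) ≤ 3175 * (n : ℤ) := by
    intro h
    have h1 : (21 : ℤ) * l ≤ n := by exact_mod_cast h21l
    have h2 : (3 : ℤ) ≤ l := by exact_mod_cast hl3
    linarith
  have hgen39 : 39 ≤ e → D ≤ 4 * (l : ℤ) + 5 → 10000 * (D + 3) ≤ 1905 * (n : ℤ) := by
    intro h39 h
    have h1 : (39 : ℤ) * l ≤ n := by
      have : 39 * l ≤ n := by rw [hnl]; exact Nat.mul_le_mul_right _ h39
      exact_mod_cast this
    have h2 : (3 : ℤ) ≤ l := by exact_mod_cast hl3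
    linarith
  have hgen5 : D ≤ 4 * (l : ℤ) - 5 → 10000 * (D + 3) ≤ 1905 * (n : ℤ) := by
    intro h
    have h1 : (21 : ℤ) * l ≤ n := by exact_mod_cast h21l
    have h2 : (3 : ℤ) ≤ l := by exact_mod_cast hl3
    linarith
  have hn0 : (0 : ℤ) ≤ n := by positivity
  rcases hsl with hA | ⟨j, s, hs, hpos, hA⟩ | ⟨H, y, r, j, s, h1, h2, h3, h4, h5', h6, h7, h8, h9,
    h10, hA⟩
  · -- `D ≤ 4 l - 5`
    have hD5 : D ≤ 4 * (l : ℤ) - 5 := by rw [hD]; linarith
    have h := hgen5 hD5
    exact ⟨fun _ => by linarith, fun _ => Or.inl (by linarith), fun _ _ => by linarith,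
      fun _ _ => by linarith, fun _ => h⟩
  · -- below an odd multiple of `l`
    have hD5 : D ≤ 4 * (l : ℤ) + 5 := by rw [hD]; linarith
    have h := hgen hD5
    -- for `b > 54/85 n` either `39 ≤ e` or contradiction
    have hbig : 54 * n < 85 * b → 39 ≤ e := by
      intro hb
      rcases hcomp with h0 | h0 | h0 | h0
      · exfalso
        subst h0
        have e1 : (2 * j + 1) * l = 2 * (j * l) + l := by ring
        -- `13 l < b + 1 ≤ 14 l`
        rcases Nat.lt_or_ge j 7 with hj | hj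
        · have : j * l ≤ 6 * l := Nat.mul_le_mul_right _ (by omega)
          omega
        · have : 7 * l ≤ j * l := Nat.mul_le_mul_right _ hj
          have h3n := lt_of_three htriv (by rw [← hn, hnl]; exact ⟨7 * l, by ring⟩)
          rw [← hn] at h3n
          omega
      · exfalso
        subst h0
        have e1 : (2 * j + 1) * l = 2 * (j * l) + l := by ring
        rcases Nat.lt_or_ge j 9 with hj | hj
        · have : j * l ≤ 8 * l := Nat.mul_le_mul_right _ (by omega)
          omega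
        · have : 9 * l ≤ j * l := Nat.mul_le_mul_right _ hj
          have h3n := lt_of_three htriv (by rw [← hn, hnl]; exact ⟨9 * l, by ring⟩)
          rw [← hn] at h3n
          omega
      · exfalso
        have := h11 (by rw [h0]; norm_num)
        omega
      · exact h0
    refine ⟨fun _ => h, fun _ => Or.inl h, fun _ _ => h, fun hb _ => ?_, fun hb => ?_⟩
    · have := hgen39 (hbig hb) hD5
      linarith
    · exact hgen39 (hbig (by omega)) hD5
  · -- thin
    obtain ⟨h, hhd⟩ : ∃ h, h = Nat.card H := ⟨_, rfl⟩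
    rw [← hhd] at h1 h4 h5' h8 h9 h10 hA
    have hDh : D ≤ 4 * (h : ℤ) + 5 := by rw [hD]; linarith
    have hh9 : 9 ≤ h := by
      rw [h4]
      calc 9 = 3 * 3 := by norm_num
        _ ≤ r * l := Nat.mul_le_mul h3 hl3
    have hyodd : Odd y := by
      rw [← h2] at hodde
      exact (Nat.odd_mul.1 hodde).1
    have hy2 : y % 2 = 1 := Nat.odd_iff.1 hyodd
    have hy5 : ¬ 5 ∣ y := fun hd => h5 (by rw [← h2]; exact hd.mul_right _)
    have e1 : (2 * j + 1) * h = 2 * (j * h) + h := by ring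
    -- bounds of `b` in terms of `h`
    have hup : 5 * b ≤ 10 * (j * h) + 4 * h := by omega
    have hlo : 2000 * (j * h) + 777 * h ≤ 1000 * b + 1000 := by omega
    have hh9Z : (9 : ℤ) ≤ h := by exact_mod_cast hh9
    have cancel : ∀ {a c : ℕ}, a * h < c * h → a < c := fun {a c} hac =>
      lt_of_mul_lt_mul_right hac (Nat.zero_le _)
    have cancel' : ∀ {a c : ℕ}, a * h ≤ c * h → a ≤ c := fun {a c} hac =>
      Nat.le_of_mul_le_mul_right hac (by omega)
    have hnum : ∀ (c N : ℤ) (y0 : ℕ), y0 ≤ y → 0 ≤ N → 10000 * 44 ≤ 9 * (N * y0) →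
        10000 * (D + 3) ≤ N * n := by
      intro c N y0 hy0 hN0 hN
      have h11 : (y0 : ℤ) * h ≤ n := by
        rw [← h1]; push_cast
        exact mul_le_mul_of_nonneg_right (by exact_mod_cast hy0) (by positivity)
      have h12 : N * ((y0 : ℤ) * h) ≤ N * n := mul_le_mul_of_nonneg_left h11 hN0
      have h13 : 0 ≤ (9 * (N * y0) - 10000 * 44) * (h : ℤ) :=
        mul_nonneg (by linarith) (by positivity)
      nlinarith
    -- range I
    have hI : 10 * b ≤ 6 * n → 19 ≤ y := by
      intro hb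
      have a1 : 7 * y < 25 * j + 10 := by
        apply cancel
        have a2 : 7 * y * h = 7 * n := by rw [← h1]; ring
        have a3 : (25 * j + 10) * h = 25 * (j * h) + 10 * h := by ring
        omega
      have a4 : 2000 * j + 665 ≤ 600 * y := by
        apply cancel'
        have a2 : 600 * y * h = 600 * n := by rw [← h1]; ring
        have a3 : (2000 * j + 665) * h = 2000 * (j * h) + 665 * h := by ring
        omega
      by_contra hc
      push Not at hc
      clear hnum hodd hodde hyodd hcomp hgen hgen39 hgen5 hA hDh hD hf htriv h11 h9 h10 h8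
      interval_cases y <;> omega
    have hII : 55 * b ≤ 34 * n → 11 ≤ y := by
      intro hb
      have a1 : 7 * y < 25 * j + 10 := by
        apply cancel
        have a2 : 7 * y * h = 7 * n := by rw [← h1]; ring
        have a3 : (25 * j + 10) * h = 25 * (j * h) + 10 * h := by ring
        omega
      have a4 : 110000 * j + 36623 ≤ 34000 * y := by
        apply cancel'
        have a2 : 34000 * y * h = 34000 * n := by rw [← h1]; ring
        have a3 : (110000 * j + 36623) * h = 110000 * (j * h) + 36623 * h := by ring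
        omega
      by_contra hc
      push Not at hc
      clear hnum hodd hodde hyodd hcomp hgen hgen39 hgen5 hA hDh hD hf htriv h11 h9 h10 h8
      interval_cases y <;> omega
    have hIII : 34 * n < 55 * b → 85 * b ≤ 54 * n → 17 ≤ y := by
      intro hb hb'
      have a1 : 34 * y < 110 * j + 44 := by
        apply cancel
        have a2 : 34 * y * h = 34 * n := by rw [← h1]; ring
        have a3 : (110 * j + 44) * h = 110 * (j * h) + 44 * h := by ring
        omega
      have a4 : 170000 * j + 56600 ≤ 54000 * y := by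
        apply cancel'
        have a2 : 54000 * y * h = 54000 * n := by rw [← h1]; ring
        have a3 : (170000 * j + 56600) * h = 170000 * (j * h) + 56600 * h := by ring
        omega
      by_contra hc
      push Not at hc
      clear hnum hodd hodde hyodd hcomp hgen hgen39 hgen5 hA hDh hD hf htriv h11 h9 h10 h8
      interval_cases y <;> omega
    have hIV : 54 * n < 85 * b → 50 * b ≤ 33 * n → 23 ≤ y := by
      intro hb hb'
      have a1 : 54 * y < 170 * j + 68 := by
        apply cancel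
        have a2 : 54 * y * h = 54 * n := by rw [← h1]; ring
        have a3 : (170 * j + 68) * h = 170 * (j * h) + 68 * h := by ring
        omega
      have a4 : 100000 * j + 33294 ≤ 33000 * y := by
        apply cancel'
        have a2 : 33000 * y * h = 33000 * n := by rw [← h1]; ring
        have a3 : (100000 * j + 33294) * h = 100000 * (j * h) + 33294 * h := by ring
        omega
      by_contra hc
      push Not at hc
      clear hnum hodd hodde hyodd hcomp hgen hgen39 hgen5 hA hDh hD hf htriv h11 h9 h10 h8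
      interval_cases y <;> omega
    have hV : 33 * n < 50 * b → 81 ≤ y := by
      intro hb
      by_contra hc
      push Not at hc
      have : y * h ≤ 80 * h := Nat.mul_le_mul_right _ (by omega)
      omega
    refine ⟨fun hb => hnum 0 3175 19 (hI hb) (by norm_num) (by norm_num), fun hb => Or.inr ⟨?_,
      hnum 0 4445 11 (hII hb) (by norm_num) (by norm_num)⟩,
      fun hb hb' => hnum 0 3175 17 (hIII hb hb') (by norm_num) (by norm_num),
      fun hb hb' => hnum 0 2126 23 (hIV hb hb') (by norm_num) (by norm_num),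
      fun hb => hnum 0 1905 81 (hV hb) (by norm_num) (by norm_num)⟩
    rw [← h2]
    calc 33 = 11 * 3 := by norm_num
      _ ≤ y * r := Nat.mul_le_mul (hII hb) h3

/-- the lower bounds of `f_G(b)`: `≥ - 4/5 (n/21)²`, and near `2/3` for `3 ∣ e` -/
theorem fG_low {b : ℕ} (hb2 : 3 * b < 2 * Fintype.card G)
    {e : ℕ} [NeZero e] (φe : G →+ ZMod e) (hφe : Function.Surjective φe) {c : ℕ} (hc : c ≤ e) :
    -4 * (Fintype.card G : ℤ) ^ 2 ≤ 5 * (c : ℤ) ^ 2 * fG G b := by
  have h1 := fG_ge_q φe hφe hb2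
  have h2 := card_ker_mul φe hφe
  obtain ⟨l, hld⟩ : ∃ l, l = Nat.card φe.ker := ⟨_, rfl⟩
  rw [← hld] at h1 h2
  have h3 : (c : ℤ) * l ≤ Fintype.card G := by
    rw [h2]; push_cast
    exact mul_le_mul_of_nonneg_right (by exact_mod_cast hc) (by positivity)
  have h4 : ((c : ℤ) * l) ^ 2 ≤ (Fintype.card G : ℤ) ^ 2 :=
    pow_le_pow_left₀ (by positivity) h3 2
  have h5 : (c : ℤ) ^ 2 * (-4 * (l : ℤ) ^ 2) ≤ (c : ℤ) ^ 2 * (5 * fG G b) :=
    mul_le_mul_of_nonneg_left h1 (by positivity)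
  nlinarith

/-- near `2/3`, `3 ∣ e`: `f_G(b) ≥ - 4 l (2n/3 - b)` -/
theorem fG_near {b : ℕ} (hb2 : 3 * b < 2 * Fintype.card G)
    {e : ℕ} [NeZero e] (φe : G →+ ZMod e) (hφe : Function.Surjective φe) (h3 : 3 ∣ e) :
    -4 * (Nat.card φe.ker : ℤ) * (2 * Fintype.card G - 3 * b) ≤ 3 * fG G b := by
  have h2 := card_ker_mul φe hφe
  have h1 := fG_ge_q φe hφe hb2
  obtain ⟨i, hi⟩ := h3
  obtain ⟨l, hld⟩ : ∃ l, l = Nat.card φe.ker := ⟨_, rfl⟩
  have hi0 : 1 ≤ i := by
    rcases Nat.eq_zero_or_pos i with h | h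
    · exact absurd (by rw [hi, h, mul_zero]) (NeZero.ne e)
    · exact h
  rw [← hld] at h1 h2
  have hn : 2 * Fintype.card G = 3 * (2 * i * l) := by
    rw [h2, hi]; ring
  obtain ⟨τ, hτ⟩ : ∃ τ, b + τ = 2 * i * l := ⟨2 * i * l - b, by omega⟩
  have hτZ : (b : ℤ) + τ = 2 * i * l := by exact_mod_cast hτ
  have hnZ : 2 * (Fintype.card G : ℤ) = 3 * (2 * i * l) := by exact_mod_cast hn
  have e1 : 2 * (Fintype.card G : ℤ) - 3 * b = 3 * τ := by rw [hnZ, ← hτZ]; ring
  rw [← hld, e1]
  have hl0 : (0 : ℤ) ≤ l := by positivity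
  have hτ0 : (0 : ℤ) ≤ τ := by positivity
  rcases Nat.lt_or_ge l τ with hlt | hge
  · have : (l : ℤ) < τ := by exact_mod_cast hlt
    nlinarith [mul_nonneg hl0 (show (0 : ℤ) ≤ τ - l by linarith)]
  · have h4 := even_wit φe hφe (b := b) (i := i) (τ := τ) (by rw [← hld]; exact hτ)
      (by rw [← hld]; exact hge) hi0 (by omega)
    rw [← hld] at h4
    nlinarith [mul_nonneg hτ0 hτ0]

end

end Pool.Agent.SCH
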