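import Mathlib
import Pool.Agent.Lib_helper25.LB.Lay2

/-!
# The hole of `⌊q/6⌋` levels for an arbitrary character
-/

set_option autoImplicit false
set_option linter.unusedSectionVars false

namespace Pool.Agent.SCH

open Finset Pool.Agent.GL Pool.Agent.Lib_helper42.RS SCH4

universe u

section
variable {G : Type u} [AddCommGroup G] [Fintype G] [DecidableEq G]

/-- the levels `6 |i| ≤ q` of an arbitrary surjection onto `ZMod q` inside `B` -/
theorem hole_six_gen {q : ℕ} {B : Finset G} (φ : G →+ ZMod q) (hφ : Function.Surjective φ)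
    (hq : 4 ≤ q) (hodd : Odd (Fintype.card G)) (hβ : 9 * Fintype.card G < 20 * B.card)
    (htriv : ∀ (q : ℕ) [NeZero q] (ψ : G →+ ZMod q), Function.Surjective ψ →
      q * B.card + ((q + 1) / 3) * Fintype.card G < q * Fintype.card G)
    (hB : ∀ x, 6 * |(φ x).valMinAbs| ≤ (q : ℤ) → x ∈ B) : Bd G B.card (FF B) := by
  have hq0 : NeZero q := ⟨by omega⟩
  have hker := card_ker_mul φ hφ
  have hm1 : q % 2 = 1 := by
    rw [hker] at hodd
    exact Nat.odd_iff.1 (Nat.odd_mul.1 hodd).1
  have hl0 : 0 < Nat.card φ.ker := Nat.card_pos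
  have hbn : B.card < Fintype.card G := by
    have := htriv q φ hφ
    have h1 : q * B.card < q * Fintype.card G := by omega
    exact lt_of_mul_lt_mul_left h1 (Nat.zero_le _)
  obtain ⟨k, s, hsl, hks⟩ : ∃ k s, s < Nat.card φ.ker ∧
      Fintype.card G - B.card = k * Nat.card φ.ker + s :=
    ⟨(Fintype.card G - B.card) / Nat.card φ.ker, (Fintype.card G - B.card) % Nat.card φ.ker,
      Nat.mod_lt _ hl0, (Nat.div_add_mod' _ _).symm⟩
  have hks' : Fintype.card G = B.card + k * Nat.card φ.ker + s := by omega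
  have hK : (q + 1) / 3 ≤ k := by
    by_contra hcon
    push Not at hcon
    have h1 := htriv q φ hφ
    have h2 : (k + 1) * Nat.card φ.ker ≤ (q + 1) / 3 * Nat.card φ.ker :=
      Nat.mul_le_mul_right _ hcon
    have h3 : Fintype.card G ≤ B.card + (q + 1) / 3 * Nat.card φ.ker := by
      rw [hks']
      have : (k + 1) * Nat.card φ.ker = k * Nat.card φ.ker + Nat.card φ.ker := by ring
      omega
    have h4 : q * Fintype.card G ≤ q * B.card + (q + 1) / 3 * Fintype.card G := by
      calc q * Fintype.card G ≤ q * (B.card + (q + 1) / 3 * Nat.card φ.ker) :=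
            Nat.mul_le_mul_left _ h3
        _ = q * B.card + (q + 1) / 3 * (q * Nat.card φ.ker) := by ring
        _ = _ := by rw [← hker]
    omega
  have hkm : k + 2 ≤ q := by
    by_contra hcon
    push Not at hcon
    have h1 : 20 * (k * Nat.card φ.ker) < 11 * (q * Nat.card φ.ker) := by
      rw [← hker]; omega
    have h2 : 20 * k < 11 * q := by
      have : (20 * k) * Nat.card φ.ker < (11 * q) * Nat.card φ.ker := by
        calc (20 * k) * Nat.card φ.ker = 20 * (k * Nat.card φ.ker) := by ring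
          _ < 11 * (q * Nat.card φ.ker) := h1
          _ = _ := by ring
      exact lt_of_mul_lt_mul_right this (Nat.zero_le _)
    omega
  refine lay_Bd2 (J := q / 6) hm1 (by omega) (fun d h1 h2 h3 => pollard_six hm1 d h1 h2 h3) φ
    hφ ?_ hks' hsl (by omega) hkm ?_
  · intro x hx
    apply hB
    have : ((q / 6 : ℕ) : ℤ) * 6 ≤ q := by omega
    linarith
  · clear hks' hks hβ hker hbn
    obtain ⟨t, ht | ht | ht⟩ : ∃ t, q = 6 * t + 1 ∨ q = 6 * t + 3 ∨ q = 6 * t + 5 :=
      ⟨q / 6, by omega⟩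
    · left; rw [ht] at hK ⊢; omega
    · left; rw [ht] at hK ⊢; omega
    · rcases Nat.eq_or_lt_of_le hK with h1 | h1
      · right; rw [ht] at h1 ⊢; omega
      · left; rw [ht] at h1 ⊢; omega

/-- **hole for another character** -/
theorem hole_six' {B : Finset G} {m : ℕ} {χ : AddChar G ℂ} {φ : G →+ ZMod m} (ctx : Ctx B χ φ)
    (hodd : Odd (Fintype.card G)) (hβ : 9 * Fintype.card G < 20 * B.card) {q : ℕ}
    (φ' : G →+ ZMod q) (hφ' : Function.Surjective φ') (hq : 4 ≤ q)
    (hB : ∀ x, 6 * |(φ' x).valMinAbs| ≤ (q : ℤ) → x ∈ B) : False := by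
  have hbd := hole_six_gen φ' hφ' hq hodd hβ ctx.triv hB
  rw [Bd_card_iff] at hbd
  exact absurd ctx.big (not_lt.2 hbd)

end

end Pool.Agent.SCH
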