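import Mathlib

/-! The real inequality behind the skewness argument (`RBStmt`). -/

namespace Pool.Agent.SCH

open Real

lemma rb_sq {A B : ℝ} (hA : 0 ≤ A) (hB : 0 ≤ B) (h : A ^ 2 ≤ B ^ 2) : A ≤ B :=
  (pow_le_pow_iff_left₀ hA hB two_ne_zero).mp h

/-- bound of the direction -/
lemma rb_dir (R I : ℝ) :
    0.8362 * √(9 * R ^ 2 + I ^ 2) ≤ √3 * √(R ^ 2 + I ^ 2) + √3 / 2 * |R| - |I| / 2 := by
  have hR : R ^ 2 = |R| ^ 2 := (sq_abs R).symm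
  have hI : I ^ 2 = |I| ^ 2 := (sq_abs I).symm
  rw [hR, hI]
  have hr : 0 ≤ |R| := abs_nonneg R
  have ht : 0 ≤ |I| := abs_nonneg I
  generalize |R| = r at *
  generalize |I| = t at *
  clear hR hI R I
  have h3 : √3 ^ 2 = 3 := Real.sq_sqrt (by norm_num)
  have h3a : 1.73205 < √3 := by
    rw [Real.lt_sqrt (by norm_num)]; norm_num
  have h3b : √3 < 1.7320509 := by
    rw [Real.sqrt_lt' (by norm_num)]; norm_num
  have hS0 : 0 ≤ √(r ^ 2 + t ^ 2) := Real.sqrt_nonneg _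
  have hS2 : √(r ^ 2 + t ^ 2) ^ 2 = r ^ 2 + t ^ 2 := Real.sq_sqrt (by positivity)
  have hT0 : 0 ≤ √(9 * r ^ 2 + t ^ 2) := Real.sqrt_nonneg _
  have hT2 : √(9 * r ^ 2 + t ^ 2) ^ 2 = 9 * r ^ 2 + t ^ 2 := Real.sq_sqrt (by positivity)
  have hSt : t ≤ √(r ^ 2 + t ^ 2) := by
    apply Real.le_sqrt_of_sq_le; nlinarith
  generalize √(r ^ 2 + t ^ 2) = S at *
  generalize √(9 * r ^ 2 + t ^ 2) = T at *
  generalize √3 = c at *
  have hrt : 0 ≤ r * t := mul_nonneg hr ht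
  rcases le_or_gt (c * r) t with hw | hw
  · -- the character is almost imaginary
    have hr2 : r ≤ 0.57736 * t := by nlinarith
    have h1 : 0.8362 * T ≤ 1.232 * t + 0.866 * r := by
      apply rb_sq (by positivity) (by positivity)
      rw [mul_pow, hT2]
      nlinarith [mul_nonneg hr (sub_nonneg.mpr hr2), mul_nonneg ht (sub_nonneg.mpr hr2)]
    nlinarith [mul_nonneg (sub_nonneg.mpr h3a.le) ht, mul_nonneg (sub_nonneg.mpr h3a.le) hr,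
      mul_nonneg (sub_nonneg.mpr h3a.le) hS0]
  · have hw0 : 0 ≤ c / 2 * r - t / 2 := by linarith
    have hcS : 0 ≤ c * S := by positivity
    have hkey : 0.8362 * T ≤ c * S + (c / 2 * r - t / 2) := by
      apply rb_sq (by positivity) (by positivity)
      rw [mul_pow, hT2]
      set w := c / 2 * r - t / 2 with hwd
      have hw2 : w ^ 2 = (3 * r ^ 2 + t ^ 2) / 4 - c * (r * t) / 2 := by
        rw [hwd]
        have : (c / 2 * r - t / 2) ^ 2 = (c ^ 2 * r ^ 2 + t ^ 2) / 4 - c * (r * t) / 2 := by ring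
        rw [this, h3]
      have hg : c * (r * t) ≤ 1.7320509 * (r * t) := by
        exact mul_le_mul_of_nonneg_right h3b.le hrt
      have hP : 0.8362 ^ 2 * (9 * r ^ 2 + t ^ 2) - 3 * (r ^ 2 + t ^ 2) - w ^ 2 ≤
          2 * (c * S) * w := by
        set P := 0.8362 ^ 2 * (9 * r ^ 2 + t ^ 2) - 3 * (r ^ 2 + t ^ 2) - w ^ 2 with hPd
        rcases le_or_gt P 0 with hP0 | hP0
        · exact hP0.trans (by positivity)
        · apply rb_sq hP0.le (by positivity)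
          have e1 : (2 * (c * S) * w) ^ 2 = 12 * (r ^ 2 + t ^ 2) * w ^ 2 := by
            have : (2 * (c * S) * w) ^ 2 = 4 * c ^ 2 * S ^ 2 * w ^ 2 := by ring
            rw [this, h3, hS2]; ring
          rw [e1, hw2]
          have hPle : P ≤ 2.54307396 * r ^ 2 + 0.86602545 * (r * t) - 2.55076956 * t ^ 2 := by
            rw [hPd, hw2]; nlinarith
          have hx : t ≤ 1.19 * r := by
            by_contra hcon
            push Not at hcon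
            nlinarith [mul_nonneg hr (sub_nonneg.mpr hcon.le),
              mul_nonneg ht (sub_nonneg.mpr hcon.le)]
          have hPP : P ^ 2 ≤ (2.54307396 * r ^ 2 + 0.86602545 * (r * t) - 2.55076956 * t ^ 2) ^ 2 :=
            pow_le_pow_left₀ hP0.le hPle 2
          refine hPP.trans ?_
          have hq : 0 ≤ 18.34 * r ^ 2 - 8.5775 * (r * t) - 3.5065 * t ^ 2 := by
            nlinarith [mul_nonneg hr (sub_nonneg.mpr hx), mul_nonneg ht (sub_nonneg.mpr hx)]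
          have hg2 : 6 * (r ^ 2 + t ^ 2) * (c * (r * t)) ≤
              6 * (r ^ 2 + t ^ 2) * (1.7320509 * (r * t)) :=
            mul_le_mul_of_nonneg_left hg (by positivity)
          have f1 := mul_nonneg (sq_nonneg (t - 0.3712 * r)) hq
          have f2 : 0 ≤ r ^ 2 * (1.4161 * r ^ 2 - t ^ 2) := by
            apply mul_nonneg (by positivity)
            nlinarith
          have f3 : 0 ≤ r ^ 2 * (r * t) := by positivity
          have f4 : 0 ≤ t ^ 2 * (r * t) := by positivity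
          have f5 : 0 ≤ t ^ 4 := by positivity
          have f6 : 0 ≤ r ^ 4 := by positivity
          nlinarith
      nlinarith
    linarith


/-- the Taylor polynomial bound for the left hand side -/
lemma rb_f {b s u w : ℝ} (hu : u = 1 - 3 / 2 * b + s / 12) (hw : w = b / 2 + s / 12 - 1 / 3)
    (hu0 : 0 ≤ u) (hu1 : u ≤ 0.3) (hw0 : 0 ≤ w) (hw1 : w ≤ 0.3) :
    3 / π * sin (π * b) * cos (π * (b / 2 - s / 12)) ≤
      3 / 2 * u - 2.4674 * u ^ 3 + 1.4613 * u ^ 5 + 0.413498 - 2.0404 * w ^ 2 + 3 / 4 * w +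
        2.1 * w ^ 4 := by
  have hp0 : 0 < π := Real.pi_pos
  have hp1 : 3.141592 < π := Real.pi_gt_d6
  have hp2 : π < 3.141593 := Real.pi_lt_d6
  have h3 : √3 ^ 2 = 3 := Real.sq_sqrt (by norm_num)
  have h3a : 1.73205 < √3 := by
    rw [Real.lt_sqrt (by norm_num)]; norm_num
  have h3b : √3 < 1.7320509 := by
    rw [Real.sqrt_lt' (by norm_num)]; norm_num
  have hprod : sin (π * b) * cos (π * (b / 2 - s / 12)) =
      (sin (π * u) + (√3 / 2 * cos (π * w) + 1 / 2 * sin (π * w))) / 2 := by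
    have e1 : sin (π * u) = sin (π * b + π * (b / 2 - s / 12)) := by
      rw [← Real.sin_pi_sub (π * u)]; congr 1; rw [hu]; ring
    have e2 : √3 / 2 * cos (π * w) + 1 / 2 * sin (π * w) =
        sin (π * b - π * (b / 2 - s / 12)) := by
      have : π * b - π * (b / 2 - s / 12) = π / 3 + π * w := by rw [hw]; ring
      rw [this, Real.sin_add, Real.sin_pi_div_three, Real.cos_pi_div_three]
    rw [e1, e2, Real.sin_add, Real.sin_sub]; ring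
  have hsu : sin (π * u) ≤ π * u - (π * u) ^ 3 / 6 + (π * u) ^ 5 / 100 := by
    have h0 : 0 ≤ π * u := by positivity
    have h1 : |π * u| ≤ 1 := by
      rw [abs_of_nonneg h0]; nlinarith
    have := (abs_le.mp (Real.sin_bound h1)).2
    rw [abs_of_nonneg h0] at this
    linarith
  have hcw : cos (π * w) ≤ 1 - (π * w) ^ 2 / 2 + (π * w) ^ 4 * (5 / 96) := by
    have h0 : 0 ≤ π * w := by positivity
    have h1 : |π * w| ≤ 1 := by
      rw [abs_of_nonneg h0]; nlinarith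
    have := (abs_le.mp (Real.cos_bound h1)).2
    rw [abs_of_nonneg h0] at this
    linarith
  have hsw : sin (π * w) ≤ π * w := Real.sin_le (by positivity)
  have hle : sin (π * b) * cos (π * (b / 2 - s / 12)) ≤
      (π * u - (π * u) ^ 3 / 6 + (π * u) ^ 5 / 100 +
        (√3 / 2 * (1 - (π * w) ^ 2 / 2 + (π * w) ^ 4 * (5 / 96)) + 1 / 2 * (π * w))) / 2 := by
    rw [hprod]
    have : √3 / 2 * cos (π * w) ≤ √3 / 2 * (1 - (π * w) ^ 2 / 2 + (π * w) ^ 4 * (5 / 96)) :=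
      mul_le_mul_of_nonneg_left hcw (by positivity)
    linarith
  have hmul : 3 / π * sin (π * b) * cos (π * (b / 2 - s / 12)) ≤
      3 / π * ((π * u - (π * u) ^ 3 / 6 + (π * u) ^ 5 / 100 +
        (√3 / 2 * (1 - (π * w) ^ 2 / 2 + (π * w) ^ 4 * (5 / 96)) + 1 / 2 * (π * w))) / 2) := by
    rw [mul_assoc]
    exact mul_le_mul_of_nonneg_left hle (by positivity)
  refine hmul.trans ?_
  have e3 : 3 / π * ((π * u - (π * u) ^ 3 / 6 + (π * u) ^ 5 / 100 +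
        (√3 / 2 * (1 - (π * w) ^ 2 / 2 + (π * w) ^ 4 * (5 / 96)) + 1 / 2 * (π * w))) / 2) =
      3 / 2 * u - π ^ 2 / 4 * u ^ 3 + 3 / 200 * π ^ 4 * u ^ 5 + 3 * √3 / (4 * π) -
        3 * √3 * π / 8 * w ^ 2 + 3 / 4 * w + 15 / 384 * √3 * π ^ 3 * w ^ 4 := by
    field_simp
    ring
  rw [e3]
  have c1 : 2.4674 ≤ π ^ 2 / 4 := by nlinarith
  have c2 : π ^ 3 ≤ 31.0063 := by
    have : π ^ 3 ≤ 3.141593 ^ 3 := pow_le_pow_left₀ hp0.le hp2.le 3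
    exact this.trans (by norm_num)
  have c2' : π ^ 4 ≤ 97.42 := by
    have : π ^ 4 ≤ 3.141593 ^ 4 := pow_le_pow_left₀ hp0.le hp2.le 4
    exact this.trans (by norm_num)
  have c3 : 3 * √3 / (4 * π) ≤ 0.413498 := by
    rw [div_le_iff₀ (by positivity)]; nlinarith
  have c4 : 2.0404 ≤ 3 * √3 * π / 8 := by nlinarith
  have c5 : 15 / 384 * √3 * π ^ 3 ≤ 2.1 := by
    have : √3 * π ^ 3 ≤ 1.7320509 * 31.0063 := by
      apply mul_le_mul h3b.le c2 (by positivity) (by norm_num)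
    nlinarith
  have d1 : 2.4674 * u ^ 3 ≤ π ^ 2 / 4 * u ^ 3 := mul_le_mul_of_nonneg_right c1 (by positivity)
  have d2 : 3 / 200 * π ^ 4 * u ^ 5 ≤ 1.4613 * u ^ 5 :=
    mul_le_mul_of_nonneg_right (by linarith) (by positivity)
  have d4 : 2.0404 * w ^ 2 ≤ 3 * √3 * π / 8 * w ^ 2 :=
    mul_le_mul_of_nonneg_right c4 (by positivity)
  have d5 : 15 / 384 * √3 * π ^ 3 * w ^ 4 ≤ 2.1 * w ^ 4 :=
    mul_le_mul_of_nonneg_right c5 (by positivity)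
  linarith

/-- monotonicity in `yB`, cleared of denominators -/
lemma rb_V {b a yB yL yA y1 y2 rho V q : ℝ} (hb0 : 0 < b) (ha0 : 0 < a) (hy1 : 0 < y1)
    (hy2 : 0 < y2) (hq : q = 2 * y1 + y2) (hyL0 : 0 ≤ yL) (hyL : yL ≤ yB)
    (hyA : yA = -(b * yB / a)) (hrho : rho = 1 / (2 * y1 + y2))
    (hV : V = a * (yA ^ 2 - rho * yA ^ 3) +
      b * (y1 ^ 2 - rho * y1 ^ 3 + (2 * y1 - 3 * rho * y1 ^ 2) * (yB - y1))) :
    a * b ^ 2 * yL ^ 2 * q + b ^ 3 * yL ^ 3 +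
      a ^ 2 * b * (y1 ^ 2 * q - y1 ^ 3 + (2 * y1 * q - 3 * y1 ^ 2) * (yL - y1)) ≤
      V * (a ^ 2 * q) := by
  have hq0 : 0 < q := by rw [hq]; positivity
  rw [← hq] at hrho
  have hV' : V * (a ^ 2 * q) = a * b ^ 2 * yB ^ 2 * q + b ^ 3 * yB ^ 3 +
      a ^ 2 * b * (y1 ^ 2 * q - y1 ^ 3 + (2 * y1 * q - 3 * y1 ^ 2) * (yB - y1)) := by
    rw [hV, hyA, hrho]
    field_simp
    ring
  rw [hV']
  have h1 : yL ^ 2 ≤ yB ^ 2 := pow_le_pow_left₀ hyL0 hyL 2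
  have h2 : yL ^ 3 ≤ yB ^ 3 := pow_le_pow_left₀ hyL0 hyL 3
  have h3 : a * b ^ 2 * q * yL ^ 2 ≤ a * b ^ 2 * q * yB ^ 2 :=
    mul_le_mul_of_nonneg_left h1 (by positivity)
  have h4 : b ^ 3 * yL ^ 3 ≤ b ^ 3 * yB ^ 3 := mul_le_mul_of_nonneg_left h2 (by positivity)
  have h5 : 0 ≤ 2 * y1 * q - 3 * y1 ^ 2 := by
    rw [hq]; nlinarith [mul_pos hy1 hy2, mul_pos hy1 hy1]
  have h6 : a ^ 2 * b * ((2 * y1 * q - 3 * y1 ^ 2) * (yL - y1)) ≤
      a ^ 2 * b * ((2 * y1 * q - 3 * y1 ^ 2) * (yB - y1)) :=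
    mul_le_mul_of_nonneg_left (mul_le_mul_of_nonneg_left (by linarith) h5) (by positivity)
  nlinarith


/-- the final step, from the polynomial inequality -/
lemma rb_final {b a yB yL yA y1 y2 rho V q R I s u w L : ℝ} (hb0 : 0 < b) (ha0 : 0 < a)
    (hy1 : 0 < y1) (hy2 : 0 < y2) (hq : q = 2 * y1 + y2) (hyL0 : 0 ≤ yL) (hyL : yL ≤ yB)
    (hyA : yA = -(b * yB / a)) (hrho : rho = 1 / (2 * y1 + y2))
    (hV : V = a * (yA ^ 2 - rho * yA ^ 3) +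
      b * (y1 ^ 2 - rho * y1 ^ 3 + (2 * y1 - 3 * rho * y1 ^ 2) * (yB - y1)))
    (hRI : V ≤ (9 * R ^ 2 + I ^ 2) * (a * b))
    (hu : u = 1 - 3 / 2 * b + s / 12) (hw : w = b / 2 + s / 12 - 1 / 3)
    (hu0 : 0 ≤ u) (hu1 : u ≤ 0.3) (hw0 : 0 ≤ w) (hw1 : w ≤ 0.3)
    (hL : 3 / 2 * u - 2.4674 * u ^ 3 + 1.4613 * u ^ 5 + 0.413498 - 2.0404 * w ^ 2 + 3 / 4 * w +
        2.1 * w ^ 4 ≤ L)
    (hW : L ^ 2 * (a ^ 3 * b * q) < 0.69923044 * (a * b ^ 2 * yL ^ 2 * q + b ^ 3 * yL ^ 3 +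
      a ^ 2 * b * (y1 ^ 2 * q - y1 ^ 3 + (2 * y1 * q - 3 * y1 ^ 2) * (yL - y1)))) :
    3 / π * sin (π * b) * cos (π * (b / 2 - s / 12)) <
      √3 * √(R ^ 2 + I ^ 2) + √3 / 2 * |R| - |I| / 2 := by
  have hq0 : 0 < q := by rw [hq]; positivity
  have h1 := rb_V hb0 ha0 hy1 hy2 hq hyL0 hyL hyA hrho hV
  have h2 := rb_f hu hw hu0 hu1 hw0 hw1
  have h3 := rb_dir R I
  have h4 : L ^ 2 * (a ^ 3 * b * q) < 0.69923044 * ((9 * R ^ 2 + I ^ 2) * (a * b)) * (a ^ 2 * q) := by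
    have : V * (a ^ 2 * q) ≤ (9 * R ^ 2 + I ^ 2) * (a * b) * (a ^ 2 * q) :=
      mul_le_mul_of_nonneg_right hRI (by positivity)
    linarith
  have h5 : L ^ 2 < 0.69923044 * (9 * R ^ 2 + I ^ 2) := by
    have hc : 0 < a ^ 3 * b * q := by positivity
    have : L ^ 2 * (a ^ 3 * b * q) < 0.69923044 * (9 * R ^ 2 + I ^ 2) * (a ^ 3 * b * q) := by
      calc _ < _ := h4
        _ = _ := by ring
    exact lt_of_mul_lt_mul_right this hc.le
  have h6 : L < 0.8362 * √(9 * R ^ 2 + I ^ 2) := by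
    have hT0 : 0 ≤ √(9 * R ^ 2 + I ^ 2) := Real.sqrt_nonneg _
    have hT2 : √(9 * R ^ 2 + I ^ 2) ^ 2 = 9 * R ^ 2 + I ^ 2 := Real.sq_sqrt (by positivity)
    by_contra hcon
    push Not at hcon
    have := pow_le_pow_left₀ (by positivity) hcon 2
    rw [mul_pow, hT2] at this
    nlinarith
  linarith

lemma rb_pow {t δ : ℝ} (h1 : -δ ≤ t) (h2 : t ≤ δ) (k : ℕ) : |t ^ k| ≤ δ ^ k := by
  rw [abs_pow]; exact pow_le_pow_left₀ (abs_nonneg t) (abs_le.mpr ⟨h1, h2⟩) k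


lemma rb_W1 {t b a yL y1 q : ℝ} (h1 : -0.00862 ≤ t) (h2 : t ≤ 0.00862) (hb : b = 0.6268 + t)
    (ha : a = 0.3732 - t) (hyL : yL = 9 / 4 * b - 3 * b ^ 2 - 0.00221)
    (hy1 : y1 = 0.2 - 1.28 * (b - 0.6182)) (hq : q = 2 * y1 + 3 * a * b) :
    (0.546117 - 1.8063 * t) ^ 2 * (a ^ 3 * b * q) < 0.69923044 * (a * b ^ 2 * yL ^ 2 * q +
      b ^ 3 * yL ^ 3 +
      a ^ 2 * b * (y1 ^ 2 * q - y1 ^ 3 + (2 * y1 * q - 3 * y1 ^ 2) * (yL - y1))) := by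
  have k2 := rb_pow h1 h2 2
  have k3 := rb_pow h1 h2 3
  have k4 := rb_pow h1 h2 4
  have k5 := rb_pow h1 h2 5
  have k6 := rb_pow h1 h2 6
  have k7 := rb_pow h1 h2 7
  have k8 := rb_pow h1 h2 8
  have k9 := rb_pow h1 h2 9
  have k10 := rb_pow h1 h2 10
  rw [abs_le] at k2 k3 k4 k5 k6 k7 k8 k9 k10
  have p2 : 0 ≤ t ^ 2 := sq_nonneg t
  subst hq hyL hy1 hb ha
  norm_num at k2 k3 k4 k5 k6 k7 k8 k9 k10
  linarith [k2.1, k2.2, k3.1, k3.2, k4.1, k4.2, k5.1, k5.2, k6.1, k6.2, k7.1, k7.2, k8.1, k8.2,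
    k9.1, k9.2, k10.1, k10.2]

lemma rb_W2 {t b a yL y1 q : ℝ} (h1 : -0.0124 ≤ t) (h2 : t ≤ 0.0124) (hb : b = 0.6476 + t)
    (ha : a = 0.3524 - t) (hyL : yL = 9 / 4 * b - 3 * b ^ 2 - 0.00215)
    (hy1 : y1 = 0.2 - 1.28 * (b - 0.6182)) (hq : q = 2 * y1 + 3 * a * b) :
    (0.488731 - 1.86793 * t) ^ 2 * (a ^ 3 * b * q) < 0.69923044 * (a * b ^ 2 * yL ^ 2 * q +
      b ^ 3 * yL ^ 3 +
      a ^ 2 * b * (y1 ^ 2 * q - y1 ^ 3 + (2 * y1 * q - 3 * y1 ^ 2) * (yL - y1))) := by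
  have k2 := rb_pow h1 h2 2
  have k3 := rb_pow h1 h2 3
  have k4 := rb_pow h1 h2 4
  have k5 := rb_pow h1 h2 5
  have k6 := rb_pow h1 h2 6
  have k7 := rb_pow h1 h2 7
  have k8 := rb_pow h1 h2 8
  have k9 := rb_pow h1 h2 9
  have k10 := rb_pow h1 h2 10
  rw [abs_le] at k2 k3 k4 k5 k6 k7 k8 k9 k10
  have p2 : 0 ≤ t ^ 2 := sq_nonneg t
  subst hq hyL hy1 hb ha
  norm_num at k2 k3 k4 k5 k6 k7 k8 k9 k10
  linarith [k2.1, k2.2, k3.1, k3.2, k4.1, k4.2, k5.1, k5.2, k6.1, k6.2, k7.1, k7.2, k8.1, k8.2,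
    k9.1, k9.2, k10.1, k10.2]

lemma rb_W3 {t b a yL y1 q : ℝ} (h1 : -0.00337 ≤ t) (h2 : t ≤ 0.00337) (hb : b = 0.6633 + t)
    (ha : a = 0.3367 - t) (hyL : yL = 9 / 4 * b - 3 * b ^ 2 - (0.21646 * (2 / 3 - b) + 0.000455))
    (hy1 : y1 = 0.2 - 1.28 * (b - 0.6182)) (hq : q = 2 * y1 + 3 * a * b) :
    (0.455097 - 1.89909 * t) ^ 2 * (a ^ 3 * b * q) < 0.69923044 * (a * b ^ 2 * yL ^ 2 * q +
      b ^ 3 * yL ^ 3 +
      a ^ 2 * b * (y1 ^ 2 * q - y1 ^ 3 + (2 * y1 * q - 3 * y1 ^ 2) * (yL - y1))) := by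
  have k2 := rb_pow h1 h2 2
  have k3 := rb_pow h1 h2 3
  have k4 := rb_pow h1 h2 4
  have k5 := rb_pow h1 h2 5
  have k6 := rb_pow h1 h2 6
  have k7 := rb_pow h1 h2 7
  have k8 := rb_pow h1 h2 8
  have k9 := rb_pow h1 h2 9
  have k10 := rb_pow h1 h2 10
  rw [abs_le] at k2 k3 k4 k5 k6 k7 k8 k9 k10
  have p2 : 0 ≤ t ^ 2 := sq_nonneg t
  subst hq hyL hy1 hb ha
  norm_num at k2 k3 k4 k5 k6 k7 k8 k9 k10
  linarith [k2.1, k2.2, k3.1, k3.2, k4.1, k4.2, k5.1, k5.2, k6.1, k6.2, k7.1, k7.2, k8.1, k8.2,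
    k9.1, k9.2, k10.1, k10.2]

lemma rb_L1 {t b s u w : ℝ} (h1 : -0.00862 ≤ t) (h2 : t ≤ 0.00862) (hb : b = 0.6268 + t)
    (hs : s = 0.3175) (hu : u = 1 - 3 / 2 * b + s / 12) (hw : w = b / 2 + s / 12 - 1 / 3) :
    3 / 2 * u - 2.4674 * u ^ 3 + 1.4613 * u ^ 5 + 0.413498 - 2.0404 * w ^ 2 + 3 / 4 * w +
        2.1 * w ^ 4 ≤ 0.546117 - 1.8063 * t := by
  have k2 := rb_pow h1 h2 2
  have k3 := rb_pow h1 h2 3
  have k4 := rb_pow h1 h2 4
  have k5 := rb_pow h1 h2 5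
  rw [abs_le] at k2 k3 k4 k5
  have p2 : 0 ≤ t ^ 2 := sq_nonneg t
  have p3 : 0 ≤ t ^ 2 * (0.00862 - t) := mul_nonneg p2 (by linarith)
  have p4 : 0 ≤ t ^ 4 := by positivity
  have p5 : 0 ≤ t ^ 2 * (0.00862 ^ 2 - t ^ 2) := mul_nonneg p2 (by linarith [k2.2])
  have p6 : 0 ≤ t ^ 4 * (t + 0.00862) := mul_nonneg p4 (by linarith)
  subst hu hw hs hb
  norm_num at k2 k3 k4 k5
  linarith [k2.1, k2.2, k3.1, k3.2, k4.1, k4.2, k5.1, k5.2]

lemma rb_L2 {t b s u w : ℝ} (h1 : -0.0124 ≤ t) (h2 : t ≤ 0.0124) (hb : b = 0.6476 + t)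
    (hs : s = 0.2126) (hu : u = 1 - 3 / 2 * b + s / 12) (hw : w = b / 2 + s / 12 - 1 / 3) :
    3 / 2 * u - 2.4674 * u ^ 3 + 1.4613 * u ^ 5 + 0.413498 - 2.0404 * w ^ 2 + 3 / 4 * w +
        2.1 * w ^ 4 ≤ 0.488731 - 1.86793 * t := by
  have k2 := rb_pow h1 h2 2
  have k3 := rb_pow h1 h2 3
  have k4 := rb_pow h1 h2 4
  have k5 := rb_pow h1 h2 5
  rw [abs_le] at k2 k3 k4 k5
  have p2 : 0 ≤ t ^ 2 := sq_nonneg t
  have p3 : 0 ≤ t ^ 2 * (0.0124 - t) := mul_nonneg p2 (by linarith)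
  have p4 : 0 ≤ t ^ 4 := by positivity
  have p5 : 0 ≤ t ^ 2 * (0.0124 ^ 2 - t ^ 2) := mul_nonneg p2 (by linarith [k2.2])
  have p6 : 0 ≤ t ^ 4 * (t + 0.0124) := mul_nonneg p4 (by linarith)
  subst hu hw hs hb
  norm_num at k2 k3 k4 k5
  linarith [k2.1, k2.2, k3.1, k3.2, k4.1, k4.2, k5.1, k5.2]

lemma rb_L3 {t b s u w : ℝ} (h1 : -0.00337 ≤ t) (h2 : t ≤ 0.00337) (hb : b = 0.6633 + t)
    (hs : s = 0.1905) (hu : u = 1 - 3 / 2 * b + s / 12) (hw : w = b / 2 + s / 12 - 1 / 3) :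
    3 / 2 * u - 2.4674 * u ^ 3 + 1.4613 * u ^ 5 + 0.413498 - 2.0404 * w ^ 2 + 3 / 4 * w +
        2.1 * w ^ 4 ≤ 0.455097 - 1.89909 * t := by
  have k2 := rb_pow h1 h2 2
  have k3 := rb_pow h1 h2 3
  have k4 := rb_pow h1 h2 4
  have k5 := rb_pow h1 h2 5
  rw [abs_le] at k2 k3 k4 k5
  have p2 : 0 ≤ t ^ 2 := sq_nonneg t
  have p3 : 0 ≤ t ^ 2 * (0.00337 - t) := mul_nonneg p2 (by linarith)
  have p4 : 0 ≤ t ^ 4 := by positivity
  have p5 : 0 ≤ t ^ 2 * (0.00337 ^ 2 - t ^ 2) := mul_nonneg p2 (by linarith [k2.2])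
  have p6 : 0 ≤ t ^ 4 * (t + 0.00337) := mul_nonneg p4 (by linarith)
  subst hu hw hs hb
  norm_num at k2 k3 k4 k5
  linarith [k2.1, k2.2, k3.1, k3.2, k4.1, k4.2, k5.1, k5.2]

/-- **[RB]** -/
theorem rb_real : ∀ (b F a yB yA y1 y2 rho V R I s : ℝ),
    ((6.8 / 11 ≤ b ∧ b ≤ 0.6354 ∧ s = 0.3175 ∧ -0.00182 ≤ F) ∨
      (0.6353 ≤ b ∧ b ≤ 0.66 ∧ s = 0.2126 ∧ -0.00182 ≤ F) ∨
      (0.66 ≤ b ∧ b ≤ 2 / 3 ∧ s = 0.1905 ∧ -0.19048 * (2 / 3 - b) - 0.0004 ≤ F)) →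
    a = 1 - b → yB = 3 * (F + 3 * b ^ 2) / (4 * b) - 3 * b ^ 2 → yA = -(b * yB / a) →
    y2 = 3 * a * b → y1 = 0.2 - 1.28 * (b - 0.6182) → rho = 1 / (2 * y1 + y2) →
    V = a * (yA ^ 2 - rho * yA ^ 3) +
      b * (y1 ^ 2 - rho * y1 ^ 3 + (2 * y1 - 3 * rho * y1 ^ 2) * (yB - y1)) →
    V ≤ (9 * R ^ 2 + I ^ 2) * (a * b) →
    3 / Real.pi * Real.sin (Real.pi * b) * Real.cos (Real.pi * (b / 2 - s / 12)) <
      √3 * √(R ^ 2 + I ^ 2) + √3 / 2 * |R| - |I| / 2 := by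
  intro b F a yB yA y1 y2 rho V R I s h ha hyB hyA hy2 hy1 hrho hV hRI
  have hyB' : ∀ c : ℝ, 0 < b → -(4 * b * c) ≤ 3 * F → 9 / 4 * b - 3 * b ^ 2 - c ≤ yB := by
    intro c hb hc
    have e : yB = 9 / 4 * b - 3 * b ^ 2 + 3 * F / (4 * b) := by
      rw [hyB]; field_simp; ring
    rw [e]
    have : -c ≤ 3 * F / (4 * b) := by
      rw [le_div_iff₀ (by positivity)]; linarith
    linarith
  rcases h with ⟨hb1, hb2, hs, hF⟩ | ⟨hb1, hb2, hs, hF⟩ | ⟨hb1, hb2, hs, hF⟩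
  · have hb1' : 0.61818 ≤ b := by
      refine le_trans ?_ hb1; norm_num
    have t1 : -0.00862 ≤ b - 0.6268 := by linarith
    have t2 : b - 0.6268 ≤ 0.00862 := by linarith
    have hy2' : 0 < y2 := by rw [hy2, ha]; nlinarith
    exact rb_final (b := b) (a := a) (yB := yB) (yL := 9 / 4 * b - 3 * b ^ 2 - 0.00221)
      (q := 2 * y1 + y2) (L := 0.546117 - 1.8063 * (b - 0.6268))
      (u := 1 - 3 / 2 * b + s / 12) (w := b / 2 + s / 12 - 1 / 3)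
      (by linarith) (by linarith) (by linarith) hy2' rfl (by nlinarith)
      (hyB' _ (by linarith) (by linarith)) hyA hrho hV hRI rfl rfl (by linarith) (by linarith)
      (by linarith) (by linarith)
      (rb_L1 t1 t2 (by ring) hs rfl rfl)
      (rb_W1 t1 t2 (by ring) (by rw [ha]; ring) rfl hy1 (by rw [hy2]))
  · have t1 : -0.0124 ≤ b - 0.6476 := by linarith
    have t2 : b - 0.6476 ≤ 0.0124 := by linarith
    have hy2' : 0 < y2 := by rw [hy2, ha]; nlinarith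
    exact rb_final (b := b) (a := a) (yB := yB) (yL := 9 / 4 * b - 3 * b ^ 2 - 0.00215)
      (q := 2 * y1 + y2) (L := 0.488731 - 1.86793 * (b - 0.6476))
      (u := 1 - 3 / 2 * b + s / 12) (w := b / 2 + s / 12 - 1 / 3)
      (by linarith) (by linarith) (by linarith) hy2' rfl (by nlinarith)
      (hyB' _ (by linarith) (by linarith)) hyA hrho hV hRI rfl rfl (by linarith) (by linarith)
      (by linarith) (by linarith)
      (rb_L2 t1 t2 (by ring) hs rfl rfl)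
      (rb_W2 t1 t2 (by ring) (by rw [ha]; ring) rfl hy1 (by rw [hy2]))
  · have t1 : -0.00337 ≤ b - 0.6633 := by linarith
    have t2 : b - 0.6633 ≤ 0.00337 := by linarith
    have hy2' : 0 < y2 := by rw [hy2, ha]; nlinarith
    exact rb_final (b := b) (a := a) (yB := yB)
      (yL := 9 / 4 * b - 3 * b ^ 2 - (0.21646 * (2 / 3 - b) + 0.000455))
      (q := 2 * y1 + y2) (L := 0.455097 - 1.89909 * (b - 0.6633))
      (u := 1 - 3 / 2 * b + s / 12) (w := b / 2 + s / 12 - 1 / 3)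
      (by linarith) (by linarith) (by linarith) hy2' rfl (by nlinarith)
      (hyB' _ (by linarith) (by nlinarith)) hyA hrho hV hRI rfl rfl (by linarith) (by linarith)
      (by linarith) (by linarith)
      (rb_L3 t1 t2 (by ring) hs rfl rfl)
      (rb_W3 t1 t2 (by ring) (by rw [ha]; ring) rfl hy1 (by rw [hy2]))

end Pool.Agent.SCH

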